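import Mathlib

/-!
# Coordinates which separate the points of a subspace
-/

set_option autoImplicit false

namespace Pool.Agent.HP778

open Module Finset

/-- A subspace of dimension `r` of a coordinate space is separated by at most `r` coordinates. -/
theorem exists_coords {K ι : Type*} [Field K] [Fintype ι] (W : Submodule K (ι → K)) :
    ∃ s : Finset ι, s.card ≤ finrank K W ∧ ∀ w ∈ W, (∀ i ∈ s, w i = 0) → w = 0 := by
  classical
  let P : Finset ι → Prop := fun s => ∀ w ∈ W, (∀ i ∈ s, w i = 0) → w = 0
  have hex : ∃ k, ∃ s : Finset ι, P s ∧ s.card = k :=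
    ⟨_, Finset.univ, fun w _ h => funext fun i => h i (Finset.mem_univ i), rfl⟩
  obtain ⟨s, hs, hk⟩ := Nat.find_spec hex
  refine ⟨s, ?_, hs⟩
  by_contra hcon
  have hdep : ¬ LinearIndependent K
      (fun i : s => (LinearMap.proj (i : ι) : (ι → K) →ₗ[K] K).comp W.subtype) := by
    intro hli
    have h1 := hli.fintype_card_le_finrank
    rw [Fintype.card_coe] at h1
    have h2 : finrank K (W →ₗ[K] K) = finrank K W := Subspace.dual_finrank_eq
    omega
  rw [Fintype.not_linearIndependent_iff] at hdep
  obtain ⟨g, hg, i₀, hi₀⟩ := hdep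
  have hP : P (s.erase i₀) := by
    intro w hw h
    apply hs w hw
    intro i hi
    by_cases hii : i = i₀
    · subst hii
      have h3 := congrArg (fun f : W →ₗ[K] K => f ⟨w, hw⟩) hg
      simp only [LinearMap.sum_apply, LinearMap.smul_apply, LinearMap.comp_apply,
        Submodule.subtype_apply, LinearMap.proj_apply, LinearMap.zero_apply, smul_eq_mul] at h3
      rw [Finset.sum_eq_single i₀] at h3
      · exact (mul_eq_zero.mp h3).resolve_left hi₀
      · intro j _ hj
        have : (j : ι) ≠ i₀ := fun h4 => hj (Subtype.ext h4)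
        rw [h j (Finset.mem_erase.mpr ⟨this, j.2⟩), mul_zero]
      · intro h4
        exact absurd (Finset.mem_univ _) h4
    · exact h i (Finset.mem_erase.mpr ⟨hii, hi⟩)
  have hlt : (s.erase (i₀ : ι)).card < Nat.find hex := by
    rw [← hk]
    exact Finset.card_erase_lt_of_mem i₀.2
  exact Nat.find_min hex hlt ⟨_, hP, rfl⟩

end Pool.Agent.HP778
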