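import Mathlib

/-!
# Partial multiplication in a space with the hyperplane property

`V` is a subspace of a field `Ω` over a subfield `k` with the hyperplane property `Hyper V`: a vector
`x` with linearly independent coordinates is orthogonal to at most `d (d - 1)` linearly independent
vectors with coordinates in `V`. For the complex numbers, `k` the algebraic numbers and `V` the space
of linear forms in logarithms this is the hyperplane case of the linear subgroup theorem.
-/

set_option autoImplicit false

namespace Pool.Agent.HP778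

open Module Finset

/-- the hyperplane property -/
def Hyper {k Ω : Type} [Field k] [Field Ω] [Algebra k Ω] (V : Submodule k Ω) : Prop :=
  ∀ (κ : Type) [Fintype κ] (d : ℕ) (x : Fin d → Ω) (a : Fin d → κ → Ω),
    LinearIndependent k x → (∀ i j, a i j ∈ V) → (∀ j, ∑ i, x i * a i j = 0) →
    LinearIndependent k (fun j i => a i j) → Fintype.card κ ≤ d * (d - 1)

variable {k Ω : Type} [Field k] [Field Ω] [Algebra k Ω]

/-- coordinate functionals of an independent family -/
theorem exists_coord {m : ℕ} {l : Fin m → Ω} (hl : LinearIndependent k l) (h : Fin m) :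
    ∃ ψ : Ω →ₗ[k] k, ∀ i, ψ (l i) = if i = h then 1 else 0 := by
  classical
  obtain ⟨g, hg⟩ := LinearMap.exists_extend
    ((Finsupp.lapply h : (Fin m →₀ k) →ₗ[k] k) ∘ₗ hl.repr)
  refine ⟨g, fun i => ?_⟩
  have h1 : l i ∈ Submodule.span k (Set.range l) := Submodule.subset_span ⟨i, rfl⟩
  have h2 := congrArg (fun f : Submodule.span k (Set.range l) →ₗ[k] k => f ⟨l i, h1⟩) hg
  simp only [LinearMap.comp_apply, Submodule.subtype_apply, Finsupp.lapply_apply] at h2
  rw [h2, hl.repr_eq_single i ⟨l i, h1⟩ rfl, Finsupp.single_apply]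

/-- the vectors `b` over `B` with `b h * p h = ∑ i, c h i • (b i * q i)` for all `h` -/
def Deg (B : Submodule k Ω) {m : ℕ} (p q : Fin m → Ω) (c : Fin m → Fin m → k) :
    Submodule k (Fin m → B) where
  carrier := {b | ∀ h, ((b h : B) : Ω) * p h = ∑ i, c h i • (((b i : B) : Ω) * q i)}
  add_mem' := by
    intro b b' hb hb' h
    have h1 := hb h
    have h2 := hb' h
    simp only [Pi.add_apply, Submodule.coe_add, add_mul, smul_add, Finset.sum_add_distrib]
    rw [h1, h2]
  zero_mem' := by
    intro h
    simp
  smul_mem' := by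
    intro a b hb h
    have h1 := hb h
    simp only [Pi.smul_apply, Submodule.coe_smul, smul_mul_assoc]
    rw [h1, Finset.smul_sum]
    refine Finset.sum_congr rfl fun i _ => ?_
    rw [smul_comm]

theorem mem_Deg {B : Submodule k Ω} {m : ℕ} {p q : Fin m → Ω} {c : Fin m → Fin m → k}
    {b : Fin m → B} : b ∈ Deg B p q c ↔
      ∀ h, ((b h : B) : Ω) * p h = ∑ i, c h i • (((b i : B) : Ω) * q i) := Iff.rfl

/-- a space of vectors with coordinates in `V` in a hyperplane -/
theorem Hyper.finrank_le {V : Submodule k Ω} (hV : Hyper V) {d : ℕ} (x : Fin d → Ω)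
    (hx : LinearIndependent k x) (E : Submodule k (Fin d → Ω)) [FiniteDimensional k E]
    (hE : ∀ a ∈ E, (∀ i, a i ∈ V) ∧ ∑ i, x i * a i = 0) : finrank k E ≤ d * (d - 1) := by
  let b := Module.finBasis k E
  have h := hV (Fin (finrank k E)) d x (fun i j => ((b j : E) : Fin d → Ω) i) hx
    (fun i j => (hE _ (b j).2).1 i) (fun j => (hE _ (b j).2).2) ?_
  · rwa [Fintype.card_fin] at h
  · exact b.linearIndependent.map' E.subtype E.ker_subtype

/-- **Core.** The `l i ∈ V` are linearly independent, `λ i ∈ V` and
`p i * l i + u i = q i * λ i`, where `B p i ⊆ C`, `B q i ⊆ C`, `B u i ⊆ W`. If the spaces `Deg B p q c`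
have dimension at most `s`, then `m * dim B ≤ dim W + s + dim C * (dim C - 1)`. -/
theorem core {V : Submodule k Ω} (hV : Hyper V) {m : ℕ} (l lam p q u : Fin m → Ω)
    (hl : LinearIndependent k l) (hlV : ∀ i, l i ∈ V) (hlam : ∀ i, lam i ∈ V)
    (hrel : ∀ i, p i * l i + u i = q i * lam i)
    (B C W : Submodule k Ω) [FiniteDimensional k B] [FiniteDimensional k C]
    [FiniteDimensional k W] (hp : ∀ b ∈ B, ∀ i, b * p i ∈ C) (hq : ∀ b ∈ B, ∀ i, b * q i ∈ C)
    (hW : ∀ b ∈ B, ∀ i, b * u i ∈ W) (s : ℕ)
    (hs : ∀ c : Fin m → Fin m → k, finrank k (Deg B p q c) ≤ s) :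
    m * finrank k B ≤ finrank k W + s + finrank k C * (finrank k C - 1) := by
  classical
  let φ : (Fin m → B) →ₗ[k] W := {
    toFun := fun b => ⟨∑ i, ((b i : B) : Ω) * u i, Submodule.sum_mem _ fun i _ => hW _ (b i).2 i⟩
    map_add' := by
      intro b b'
      apply Subtype.ext
      simp only [Pi.add_apply, Submodule.coe_add, add_mul, Finset.sum_add_distrib]
    map_smul' := by
      intro a b
      apply Subtype.ext
      simp only [Pi.smul_apply, Submodule.coe_smul, smul_mul_assoc, RingHom.id_apply]
      rw [Finset.smul_sum] }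
  set E := LinearMap.ker φ with hE
  have hdim : m * finrank k B ≤ finrank k W + finrank k E := by
    have h1 := LinearMap.finrank_range_add_finrank_ker φ
    have h2 : finrank k (LinearMap.range φ) ≤ finrank k W := Submodule.finrank_le _
    rw [Module.finrank_pi_fintype, Finset.sum_const, Finset.card_univ, Fintype.card_fin,
      smul_eq_mul, ← hE] at h1
    omega
  let bC := Module.finBasis k C
  let x : Fin (finrank k C) → Ω := fun v => ((bC v : C) : Ω)
  have hx : LinearIndependent k x := bC.linearIndependent.map' C.subtype C.ker_subtype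
  -- coordinates of the products
  let γp : Fin m → B →ₗ[k] C := fun i => {
    toFun := fun b => ⟨(b : Ω) * p i, hp _ b.2 i⟩
    map_add' := by intro b b'; apply Subtype.ext; simp only [Submodule.coe_add, add_mul]
    map_smul' := by
      intro a b; apply Subtype.ext
      simp only [Submodule.coe_smul, smul_mul_assoc, RingHom.id_apply] }
  let γq : Fin m → B →ₗ[k] C := fun i => {
    toFun := fun b => ⟨(b : Ω) * q i, hq _ b.2 i⟩
    map_add' := by intro b b'; apply Subtype.ext; simp only [Submodule.coe_add, add_mul]
    map_smul' := by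
      intro a b; apply Subtype.ext
      simp only [Submodule.coe_smul, smul_mul_assoc, RingHom.id_apply] }
  have hγp : ∀ i (b : B), ∑ v, bC.repr (γp i b) v • x v = (b : Ω) * p i := by
    intro i b
    have h := congrArg (fun z : C => (z : Ω)) (bC.sum_repr (γp i b))
    simp only [Submodule.coe_sum, Submodule.coe_smul] at h
    exact h
  have hγq : ∀ i (b : B), ∑ v, bC.repr (γq i b) v • x v = (b : Ω) * q i := by
    intro i b
    have h := congrArg (fun z : C => (z : Ω)) (bC.sum_repr (γq i b))
    simp only [Submodule.coe_sum, Submodule.coe_smul] at h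
    exact h
  let Φ : (Fin m → B) →ₗ[k] (Fin (finrank k C) → Ω) := {
    toFun := fun b v => ∑ i, (bC.repr (γp i (b i)) v • l i - bC.repr (γq i (b i)) v • lam i)
    map_add' := by
      intro b b'
      funext v
      simp only [Pi.add_apply, map_add, Finsupp.add_apply, add_smul]
      rw [← Finset.sum_add_distrib]
      refine Finset.sum_congr rfl fun i _ => ?_
      ring
    map_smul' := by
      intro a b
      funext v
      simp only [Pi.smul_apply, map_smul, Finsupp.smul_apply, smul_eq_mul, RingHom.id_apply]
      rw [Finset.smul_sum]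
      refine Finset.sum_congr rfl fun i _ => ?_
      rw [smul_sub, mul_smul, mul_smul] }
  let ΦE : E →ₗ[k] (Fin (finrank k C) → Ω) := Φ.comp E.subtype
  have hrange : finrank k (LinearMap.range ΦE) ≤ finrank k C * (finrank k C - 1) := by
    apply hV.finrank_le x hx
    rintro _ ⟨b, rfl⟩
    refine ⟨fun v => ?_, ?_⟩
    · change ∑ i, (bC.repr (γp i ((b : Fin m → B) i)) v • l i -
          bC.repr (γq i ((b : Fin m → B) i)) v • lam i) ∈ V
      refine Submodule.sum_mem _ fun i _ => Submodule.sub_mem _ ?_ ?_
      · exact Submodule.smul_mem _ _ (hlV i)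
      · exact Submodule.smul_mem _ _ (hlam i)
    · have h0 : φ b = 0 := LinearMap.mem_ker.mp b.2
      have h1 : ∑ i, (((b : Fin m → B) i : B) : Ω) * u i = 0 :=
        congrArg (fun z : W => (z : Ω)) h0
      have e1 : ∑ v, x v * ΦE b v = ∑ i,
          ((∑ v, bC.repr (γp i ((b : Fin m → B) i)) v • x v) * l i -
            (∑ v, bC.repr (γq i ((b : Fin m → B) i)) v • x v) * lam i) := by
        change ∑ v, x v * ∑ i, (bC.repr (γp i ((b : Fin m → B) i)) v • l i -
          bC.repr (γq i ((b : Fin m → B) i)) v • lam i) = _
        simp only [Finset.mul_sum, Finset.sum_mul]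
        rw [Finset.sum_comm]
        refine Finset.sum_congr rfl fun i _ => ?_
        rw [← Finset.sum_sub_distrib]
        refine Finset.sum_congr rfl fun v _ => ?_
        simp only [Algebra.smul_def]
        ring
      rw [e1, ← neg_eq_zero, ← h1, ← Finset.sum_neg_distrib]
      refine Finset.sum_congr rfl fun i _ => ?_
      rw [hγp, hγq]
      linear_combination (-(((b : Fin m → B) i : B) : Ω)) * hrel i
  choose ψ hψ using fun h : Fin m => exists_coord hl h
  have hker : finrank k (LinearMap.ker ΦE) ≤ s := by
    refine le_trans ?_ (hs (fun h i => ψ h (lam i)))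
    have h1 : (LinearMap.ker ΦE).map E.subtype ≤ Deg B p q (fun h i => ψ h (lam i)) := by
      rintro _ ⟨b, hb, rfl⟩
      rw [mem_Deg]
      intro h
      have h2 : ∀ v, bC.repr (γp h ((b : Fin m → B) h)) v =
          ∑ i, bC.repr (γq i ((b : Fin m → B) i)) v * ψ h (lam i) := by
        intro v
        have h3 : ΦE b = 0 := LinearMap.mem_ker.mp hb
        have h4 : ∑ i, (bC.repr (γp i ((b : Fin m → B) i)) v • l i -
          bC.repr (γq i ((b : Fin m → B) i)) v • lam i) = 0 := congrFun h3 v
        have h5 := congrArg (ψ h) h4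
        rw [map_zero, map_sum] at h5
        simp only [map_sub, map_smul, smul_eq_mul, Finset.sum_sub_distrib] at h5
        rw [Finset.sum_eq_single h] at h5
        · rw [hψ h h, if_pos rfl, mul_one] at h5
          exact sub_eq_zero.mp h5
        · intro i _ hi
          rw [hψ h i, if_neg hi, mul_zero]
        · intro hh; exact absurd (Finset.mem_univ _) hh
      rw [Submodule.subtype_apply, ← hγp h]
      rw [Finset.sum_congr rfl fun v _ => by rw [h2 v]]
      have h6 : ∀ i, ψ h (lam i) • ((((b : Fin m → B) i : B) : Ω) * q i) =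
          ∑ v, (bC.repr (γq i ((b : Fin m → B) i)) v * ψ h (lam i)) • x v := by
        intro i
        rw [← hγq i, Finset.smul_sum]
        refine Finset.sum_congr rfl fun v _ => ?_
        rw [smul_smul, mul_comm]
      rw [Finset.sum_congr rfl fun i _ => h6 i, Finset.sum_comm]
      refine Finset.sum_congr rfl fun v _ => ?_
      rw [Finset.sum_smul]
    have h7 := Submodule.finrank_mono h1
    have h8 : finrank k ((LinearMap.ker ΦE).map E.subtype) = finrank k (LinearMap.ker ΦE) :=
      (Submodule.equivMapOfInjective E.subtype E.injective_subtype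
        (LinearMap.ker ΦE)).finrank_eq.symm
    omega
  have h9 := LinearMap.finrank_range_add_finrank_ker (V := E)
    (V₂ := Fin (finrank k C) → Ω) ΦE
  omega

end Pool.Agent.HP778
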