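import Pool.Agent.HP778.Coords
import Pool.Agent.W254.HP.Opt

/-!
# Counting integers of small multiplicative rank
-/

set_option autoImplicit false

namespace Pool.Agent.HP778

open Module Finset

/-- the vector of the exponents in the prime factorisation -/
def vec (N n : ℕ) : Fin (N + 1) → ℚ := fun p => (n.factorization p : ℚ)

/-- the linear map to the logarithms -/
noncomputable def Lg (N : ℕ) : (Fin (N + 1) → ℚ) →ₗ[ℚ] ℂ :=
  Fintype.linearCombination ℚ (fun p : Fin (N + 1) => ((Real.log (p : ℕ) : ℝ) : ℂ))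

theorem Lg_apply (N : ℕ) (w : Fin (N + 1) → ℚ) :
    Lg N w = ∑ p, w p • ((Real.log ((p : Fin (N + 1)) : ℕ) : ℝ) : ℂ) := by
  rw [Lg, Fintype.linearCombination_apply]

theorem Lg_vec {N n : ℕ} (hn : n ≤ N) : Lg N (vec N n) = ((Real.log n : ℝ) : ℂ) := by
  rw [Lg_apply, Real.log_nat_eq_sum_factorization, Finsupp.sum]
  rw [Finset.sum_subset (s₂ := Finset.range (N + 1))]
  · rw [← Fin.sum_univ_eq_sum_range (fun p => (n.factorization p : ℝ) * Real.log p) (N + 1)]
    push_cast
    refine Finset.sum_congr rfl fun p _ => ?_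
    rw [Rat.smul_def, vec]
    push_cast
    rfl
  · intro p hp
    rw [Finset.mem_range]
    have h1 := Nat.le_of_mem_primeFactors (by simpa using hp : p ∈ n.primeFactors)
    omega
  · intro p _ hp
    rw [Finsupp.notMem_support_iff.mp hp]
    simp

theorem vec_nonprime {N n : ℕ} (p : Fin (N + 1)) (hp : ¬ (p : ℕ).Prime) : vec N n p = 0 := by
  rw [vec, Nat.factorization_eq_zero_of_not_prime _ hp, Nat.cast_zero]

theorem Lg_inj {N : ℕ} {w : Fin (N + 1) → ℚ} (hw : ∀ p : Fin (N + 1), ¬ (p : ℕ).Prime → w p = 0)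
    (h : Lg N w = 0) : w = 0 := by
  classical
  have hli := Pool.Agent.W254.HP.log_primes_indep.comp
    (fun p : {p : Fin (N + 1) // (p : ℕ).Prime} => (⟨(p.1 : ℕ), p.2⟩ : Nat.Primes)) (by
      intro p q hpq
      exact Subtype.ext (Fin.ext (congrArg Subtype.val hpq)))
  rw [Fintype.linearIndependent_iff] at hli
  have h1 := hli (fun p => w p.1) (by
    rw [Lg_apply] at h
    rw [← h]
    rw [← Finset.sum_filter_add_sum_filter_not Finset.univ (fun p : Fin (N + 1) => (p : ℕ).Prime)]
    rw [Finset.sum_eq_zero (s := Finset.univ.filter fun p : Fin (N + 1) => ¬ (p : ℕ).Prime)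
      (fun p hp => by rw [hw p (Finset.mem_filter.mp hp).2, zero_smul]), add_zero]
    rw [Finset.sum_subtype (Finset.univ.filter fun p : Fin (N + 1) => (p : ℕ).Prime)
      (p := fun p : Fin (N + 1) => (p : ℕ).Prime) (fun p => by simp)]
    rfl)
  funext p
  by_cases hp : (p : ℕ).Prime
  · exact h1 ⟨p, hp⟩
  · exact hw p hp

/-- **Counting.** Let `S` be a set of integers between `1` and `N`, and let `1 ≤ n₀ ≤ N`. If at most
`r` of the numbers `log n - log n₀`, `n ∈ S`, are linearly independent over the rational numbers, then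
`S` has at most `(log₂ N + 1) ^ r` elements. -/
theorem count {N r : ℕ} (S : Finset ℕ) (hS : ∀ n ∈ S, 1 ≤ n ∧ n ≤ N) (n₀ : ℕ) (hn₀ : n₀ ≤ N)
    (h : ∀ (m : ℕ) (n : Fin m → ℕ), (∀ i, n i ∈ S) →
      LinearIndependent ℚ (fun i => ((Real.log (n i) : ℝ) : ℂ) - ((Real.log n₀ : ℝ) : ℂ)) →
      m ≤ r) : S.card ≤ (Nat.log 2 N + 1) ^ r := by
  classical
  let D : Set (Fin (N + 1) → ℚ) := (fun n => vec N n - vec N n₀) '' (S : Set ℕ)
  have hDfin : D.Finite := S.finite_toSet.image _
  obtain ⟨b, hbD, hspan, hbli⟩ := exists_linearIndependent ℚ D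
  have hbfin : b.Finite := hDfin.subset hbD
  have : Fintype b := hbfin.fintype
  set W := Submodule.span ℚ D with hW
  have hWp : ∀ w ∈ W, ∀ p : Fin (N + 1), ¬ (p : ℕ).Prime → w p = 0 := by
    intro w hw p hp
    have h1 : W ≤ LinearMap.ker (LinearMap.proj p : (Fin (N + 1) → ℚ) →ₗ[ℚ] ℚ) := by
      rw [hW, Submodule.span_le]
      rintro _ ⟨n, _, rfl⟩
      change (vec N n - vec N n₀) p = 0
      rw [Pi.sub_apply, vec_nonprime p hp, vec_nonprime p hp, sub_zero]
    exact h1 hw
  have hfr : finrank ℚ W ≤ r := by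
    have hfc := finrank_span_eq_card hbli
    rw [Subtype.range_coe] at hfc
    rw [← hspan, hfc]
    let e := Fintype.equivFin b
    choose n hnS hn using fun i : Fin (Fintype.card b) => hbD (e.symm i).2
    refine h (Fintype.card b) n hnS ?_
    rw [Fintype.linearIndependent_iff]
    intro g hg
    have h2 : Lg N (∑ i, g i • ((e.symm i : b) : Fin (N + 1) → ℚ)) = 0 := by
      rw [map_sum, ← hg]
      refine Finset.sum_congr rfl fun i _ => ?_
      rw [map_smul]
      congr 1
      have h3 : ((e.symm i : b) : Fin (N + 1) → ℚ) = vec N (n i) - vec N n₀ := (hn i).symm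
      rw [h3, map_sub, Lg_vec (hS _ (hnS i)).2, Lg_vec hn₀]
    have h4 := Lg_inj (fun p hp => by
      rw [Finset.sum_apply]
      refine Finset.sum_eq_zero fun i _ => ?_
      rw [Pi.smul_apply, hWp _ (Submodule.subset_span (hbD (e.symm i).2)) p hp, smul_zero]) h2
    exact Fintype.linearIndependent_iff.mp (hbli.comp e.symm e.symm.injective) g h4
  obtain ⟨s, hs, hsep⟩ := exists_coords W
  have hinj : Set.InjOn (fun n : ℕ => fun p : s => n.factorization (p : Fin (N + 1))) (S : Set ℕ) := by
    intro n hn n' hn' heq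
    have h1 : vec N n - vec N n' ∈ W := by
      have h2 : vec N n - vec N n' = (vec N n - vec N n₀) - (vec N n' - vec N n₀) := by abel
      rw [h2]
      exact W.sub_mem (Submodule.subset_span ⟨n, hn, rfl⟩) (Submodule.subset_span ⟨n', hn', rfl⟩)
    have h3 := hsep _ h1 (fun p hp => by
      rw [Pi.sub_apply, vec, vec, sub_eq_zero]
      exact_mod_cast congrFun heq ⟨p, hp⟩)
    obtain ⟨hn1, hnN⟩ := hS n hn
    obtain ⟨hn1', hnN'⟩ := hS n' hn'
    apply Nat.eq_of_factorization_eq (by omega) (by omega)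
    intro p
    by_cases hp : p < N + 1
    · have h4 := congrFun h3 ⟨p, hp⟩
      rw [Pi.sub_apply, Pi.zero_apply, sub_eq_zero, vec, vec] at h4
      exact_mod_cast h4
    · rw [Nat.factorization_eq_zero_of_lt (by omega), Nat.factorization_eq_zero_of_lt (by omega)]
  have hcard : S.card ≤ (Fintype.piFinset (fun _ : s => Finset.range (Nat.log 2 N + 1))).card := by
    refine Finset.card_le_card_of_injOn _ ?_ hinj
    intro n hn
    rw [Finset.mem_coe, Fintype.mem_piFinset]
    intro p
    rw [Finset.mem_range]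
    change n.factorization ((p : Fin (N + 1)) : ℕ) < Nat.log 2 N + 1
    obtain ⟨hn1, hnN⟩ := hS n hn
    by_cases hp : ((p : Fin (N + 1)) : ℕ).Prime
    · have h1 : (p : Fin (N + 1)).1 ^ n.factorization (p : Fin (N + 1)) ≤ n :=
        Nat.le_of_dvd (by omega) (Nat.ordProj_dvd n _)
      have h2 : 2 ^ n.factorization (p : Fin (N + 1)) ≤ N :=
        ((Nat.pow_le_pow_left hp.two_le _).trans h1).trans hnN
      have h3 := Nat.le_log_of_pow_le (by norm_num) h2
      omega
    · rw [Nat.factorization_eq_zero_of_not_prime _ hp]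
      omega
  refine hcard.trans ?_
  rw [Fintype.card_piFinset, Finset.prod_const, Finset.card_range, Finset.card_univ,
    Fintype.card_coe]
  exact Nat.pow_le_pow_right (by omega) (hs.trans hfr)

end Pool.Agent.HP778
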