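import Pool.Agent.HP778.KZ5

/-!
# Multipliers of the numbers `γ + log n`
-/

set_option autoImplicit false

namespace Pool.Agent.HP778.EE

open Module Finset Polynomial
open Pool.Agent.HP778.KZ
open Pool.Agent.H301R2.SSE (QB mem_QB Lt Lt_mul Lt_alg Lt_log Lt_one)

/-- `1` is not a linear combination, with algebraic coefficients, of logarithms of algebraic
numbers. -/
theorem one_notMem : (1 : ℂ) ∉ Submodule.span QB {z : ℂ | IsAlgebraic ℚ (Complex.exp z)} := by
  intro h
  obtain ⟨b, hbS, hspan, hbli⟩ := exists_linearIndependent ℚ {z : ℂ | IsAlgebraic ℚ (Complex.exp z)}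
  have h1 : Submodule.span QB {z : ℂ | IsAlgebraic ℚ (Complex.exp z)} ≤ Submodule.span QB b := by
    rw [Submodule.span_le]
    intro z hz
    have h2 : z ∈ Submodule.span ℚ b := by
      rw [hspan]
      exact Submodule.subset_span hz
    exact Submodule.span_le_restrictScalars ℚ QB b h2
  obtain ⟨T, hTb, hT⟩ := Submodule.mem_span_finite_of_mem_span (h1 h)
  let e := T.equivFin
  let l : Fin T.card → ℂ := fun i => (e.symm i : ℂ)
  have hlalg : ∀ i, IsAlgebraic ℚ (Complex.exp (l i)) := fun i => hbS (hTb (e.symm i).2)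
  have hlli : LinearIndependent ℚ l := by
    have h3 : LinearIndependent ℚ ((↑) : T → ℂ) :=
      hbli.comp (fun x : T => (⟨x, hTb x.2⟩ : b)) (fun x y hxy => by
        apply Subtype.ext
        exact congrArg (fun z : b => (z : ℂ)) hxy)
    exact h3.comp e.symm e.symm.injective
  have h4 := indep_cons hlalg hlli
  have h5 : Submodule.span QB (T : Set ℂ) ≤ Submodule.span QB (Set.range l) := by
    refine Submodule.span_mono ?_
    intro x hx
    exact ⟨e ⟨x, hx⟩, by simp [l]⟩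
  obtain ⟨c, hc⟩ := (Submodule.mem_span_range_iff_exists_fun QB).mp (h5 hT)
  rw [Fintype.linearIndependent_iff] at h4
  have h6 := h4 (fun i => (finSuccEquiv _ i).elim (-1 : QB) c) (by
    rw [Fin.sum_univ_succ]
    simp only [finSuccEquiv_zero, finSuccEquiv_succ, Option.elim]
    rw [hc, neg_smul, one_smul, neg_add_cancel]) 0
  simp at h6

/-- the numbers `γ_i + log α_i` are linearly independent -/
theorem indep_add {m : ℕ} {l : Fin m → ℂ} (halg : ∀ i, IsAlgebraic ℚ (Complex.exp (l i)))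
    (hli : LinearIndependent ℚ l) (γ : Fin m → ℂ) (hγ : ∀ i, IsAlgebraic ℚ (γ i)) :
    LinearIndependent QB (fun i => γ i + l i) := by
  have h4 := indep_cons halg hli
  rw [Fintype.linearIndependent_iff] at h4 ⊢
  intro g hg i
  let γ' : Fin m → QB := fun i => ⟨γ i, mem_QB.mpr (hγ i)⟩
  have h6 := h4 (fun i => (finSuccEquiv _ i).elim (∑ j, g j * γ' j : QB) g) (by
    rw [Fin.sum_univ_succ]
    simp only [finSuccEquiv_zero, finSuccEquiv_succ, Option.elim]
    rw [← hg, Finset.sum_smul, ← Finset.sum_add_distrib]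
    refine Finset.sum_congr rfl fun j _ => ?_
    simp only [Algebra.smul_def, map_mul, mul_one, mul_add]
    rfl) i.succ
  simpa using h6

/-- counting the `n` with `t (γ + log n)` a linear form in logarithms, `γ ≠ 0` fixed -/
theorem count_add {t : ℂ} (ht : Transcendental ℚ t) {γ : ℂ} (hγ : IsAlgebraic ℚ γ) (hγ0 : γ ≠ 0)
    (S : Finset ℕ) {N : ℕ} (hS : ∀ n ∈ S, 1 ≤ n ∧ n ≤ N)
    (h : ∀ n ∈ S, t * (γ + ((Real.log n : ℝ) : ℂ)) ∈ Lt) : S.card ≤ Nat.log 2 N + 1 := by
  rcases S.eq_empty_or_nonempty with h0 | ⟨n₀, hn₀⟩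
  · rw [h0, Finset.card_empty]
    exact Nat.zero_le _
  have h4 := count (N := N) (r := 1) S hS n₀ (hS n₀ hn₀).2 ?_
  · rwa [pow_one] at h4
  intro m n hn hli
  have halg : ∀ i, IsAlgebraic ℚ (Complex.exp (((Real.log (n i) : ℝ) : ℂ) -
      ((Real.log n₀ : ℝ) : ℂ))) := fun i => exp_sub_alg (hS _ (hn i)).1 (hS _ hn₀).1
  have h5 := mult_two ht (m := m + 1) (Fin.cons (γ + ((Real.log n₀ : ℝ) : ℂ))
    (fun i => ((Real.log (n i) : ℝ) : ℂ) - ((Real.log n₀ : ℝ) : ℂ))) ?_ ?_ ?_
  · omega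
  · rw [linearIndependent_finCons]
    refine ⟨indep_QB halg hli, fun hmem => ?_⟩
    have h6 : γ + ((Real.log n₀ : ℝ) : ℂ) ∈
        Submodule.span QB {z : ℂ | IsAlgebraic ℚ (Complex.exp z)} := by
      refine Submodule.span_mono ?_ hmem
      rintro _ ⟨i, rfl⟩
      exact halg i
    have h7 := Submodule.sub_mem _ h6 (Submodule.subset_span (s := {z : ℂ | IsAlgebraic ℚ
      (Complex.exp z)}) (exp_log_alg (hS _ hn₀).1))
    rw [add_sub_cancel_right] at h7
    have h8 := Submodule.smul_mem _ (⟨γ⁻¹, mem_QB.mpr hγ.inv⟩ : QB) h7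
    apply one_notMem
    have h9 : (⟨γ⁻¹, mem_QB.mpr hγ.inv⟩ : QB) • γ = (1 : ℂ) := by
      rw [Algebra.smul_def]
      exact inv_mul_cancel₀ hγ0
    rwa [h9] at h8
  · intro i
    refine Fin.cases ?_ (fun i => ?_) i
    · rw [Fin.cons_zero]
      exact Lt.add_mem (Lt_alg hγ) (Lt_log (exp_log_alg (hS _ hn₀).1))
    · rw [Fin.cons_succ]
      exact Lt_log (halg i)
  · intro i
    refine Fin.cases ?_ (fun i => ?_) i
    · rw [Fin.cons_zero]
      exact h n₀ hn₀
    · rw [Fin.cons_succ]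
      have h2 : t * (((Real.log (n i) : ℝ) : ℂ) - ((Real.log n₀ : ℝ) : ℂ)) =
        t * (γ + ((Real.log (n i) : ℝ) : ℂ)) - t * (γ + ((Real.log n₀ : ℝ) : ℂ)) := by ring
      rw [h2]
      exact Lt.sub_mem (h _ (hn i)) (h _ hn₀)

end Pool.Agent.HP778.EE
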