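import Pool.Agent.HP778.Core
import Pool.Agent.HP778.Coords
import Pool.Agent.W254.HP.LA2

/-!
# The defect is at most one half
-/

set_option autoImplicit false

namespace Pool.Agent.HP778

open Module Finset

variable {k Ω : Type} [Field k] [Field Ω] [Algebra k Ω]

/-- A space of vectors `x` over `Ω` with `x h * R h = ∑ i, c h i • x i`, where the `c h i` are in `k`
and the `R h` are not, has dimension at most `m / 2`. -/
theorem half {m : ℕ} (R : Fin m → Ω) (hR : ∀ i, ∀ a : k, algebraMap k Ω a ≠ R i)
    (c : Fin m → Fin m → k) (K : Submodule Ω (Fin m → Ω))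
    (hK : ∀ x ∈ K, ∀ h, x h * R h = ∑ i, c h i • x i) : 2 * finrank Ω K ≤ m := by
  classical
  obtain ⟨r, e, v, hr, hv, hev, -⟩ := Pool.Agent.W254.HP.pivot_basis K
  rw [hr]
  have hinj : Function.Injective e := by
    intro a b hab
    by_contra hne
    have h1 := hev a b
    have h2 := hev b b
    rw [hab, h2, if_pos rfl, if_neg hne] at h1
    exact one_ne_zero h1
  by_contra hcon
  let S : Finset (Fin m) := Finset.univ \ Finset.univ.image e
  have hS : S.card = m - r := by
    rw [Finset.card_sdiff_of_subset (Finset.subset_univ _), Finset.card_univ, Fintype.card_fin,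
      Finset.card_image_of_injective _ hinj, Finset.card_univ, Fintype.card_fin]
  let L : (Fin r → k) →ₗ[k] (S → k) := {
    toFun := fun w i => ∑ b, w b * c (e b) i
    map_add' := by
      intro w w'; funext i
      simp only [Pi.add_apply, add_mul, Finset.sum_add_distrib]
    map_smul' := by
      intro a w; funext i
      simp only [Pi.smul_apply, smul_eq_mul, RingHom.id_apply, Finset.mul_sum, mul_assoc] }
  have hrm : r ≤ m := by
    have := Fintype.card_le_of_injective e hinj
    simpa using this
  have hker : LinearMap.ker L ≠ ⊥ := by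
    apply LinearMap.ker_ne_bot_of_finrank_lt
    rw [Module.finrank_fintype_fun_eq_card, Module.finrank_fintype_fun_eq_card, Fintype.card_coe,
      Fintype.card_fin, hS]
    omega
  obtain ⟨w, hw, hw0⟩ := (Submodule.ne_bot_iff _).mp hker
  obtain ⟨a, ha⟩ := Function.ne_iff.mp hw0
  rw [Pi.zero_apply] at ha
  have hwS : ∀ i, i ∉ Finset.univ.image e → ∑ b, w b * c (e b) i = 0 := by
    intro i hi
    have h1 := congrFun (LinearMap.mem_ker.mp hw) ⟨i, Finset.mem_sdiff.mpr ⟨Finset.mem_univ _, hi⟩⟩
    exact h1
  -- multiply by `w` and sum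
  have h1 : ∑ b, w b • (v a (e b) * R (e b)) = w a • R (e a) := by
    rw [Finset.sum_eq_single a]
    · rw [hev a a, if_pos rfl, one_mul]
    · intro b _ hb
      rw [hev b a, if_neg hb, zero_mul, smul_zero]
    · intro h; exact absurd (Finset.mem_univ _) h
  have h2 : ∑ b, w b • (v a (e b) * R (e b)) = algebraMap k Ω (∑ b, w b * c (e b) (e a)) := by
    have h3 : ∀ b, w b • (v a (e b) * R (e b)) = ∑ i, (w b * c (e b) i) • v a i := by
      intro b
      rw [hK _ (hv a) (e b), Finset.smul_sum]
      refine Finset.sum_congr rfl fun i _ => ?_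
      rw [smul_smul]
    rw [Finset.sum_congr rfl fun b _ => h3 b, Finset.sum_comm, Finset.sum_eq_single (e a)]
    · rw [hev a a, if_pos rfl, map_sum]
      refine Finset.sum_congr rfl fun b _ => ?_
      rw [Algebra.smul_def, mul_one]
    · intro i _ hi
      by_cases hie : i ∈ Finset.univ.image e
      · obtain ⟨b', -, rfl⟩ := Finset.mem_image.mp hie
        have hb' : b' ≠ a := fun h => hi (by rw [h])
        refine Finset.sum_eq_zero fun b _ => ?_
        rw [hev b' a, if_neg hb', smul_zero]
      · rw [← Finset.sum_smul, hwS i hie, zero_smul]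
    · intro h; exact absurd (Finset.mem_univ _) h
  rw [h1] at h2
  apply hR (e a) ((w a)⁻¹ * ∑ b, w b * c (e b) (e a))
  rw [map_mul, ← h2, Algebra.smul_def, map_inv₀, inv_mul_cancel_left₀]
  rwa [Ne, map_eq_zero]

/-- the solution spaces are small if the quotients `p i / q i` are not in `k` -/
theorem finrank_Deg_le {m : ℕ} (B : Submodule k Ω) [FiniteDimensional k B] (p q : Fin m → Ω)
    (hq : ∀ i, q i ≠ 0) (hpq : ∀ i, ∀ a : k, algebraMap k Ω a * q i ≠ p i)
    (c : Fin m → Fin m → k) : 2 * finrank k (Deg B p q c) ≤ m * finrank k B := by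
  classical
  let K : Submodule Ω (Fin m → Ω) := {
    carrier := {x | ∀ h, x h * (p h / q h) = ∑ i, c h i • x i}
    add_mem' := by
      intro x y hx hy h
      have h1 := hx h
      have h2 := hy h
      simp only [Pi.add_apply, add_mul, smul_add, Finset.sum_add_distrib]
      rw [h1, h2]
    zero_mem' := by intro h; simp
    smul_mem' := by
      intro a x hx h
      have h1 := hx h
      simp only [Pi.smul_apply, smul_eq_mul, mul_assoc]
      rw [h1, Finset.mul_sum]
      refine Finset.sum_congr rfl fun i _ => ?_
      rw [mul_smul_comm] }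
  have hhalf := half (fun h => p h / q h) (fun i a h => hpq i a (by
    rw [h, div_mul_cancel₀ _ (hq i)])) c K (fun x hx => hx)
  obtain ⟨s, hs, hsep⟩ := exists_coords K
  let T : Deg B p q c →ₗ[k] (s → B) := {
    toFun := fun b i => (b : Fin m → B) i
    map_add' := by intro b b'; rfl
    map_smul' := by intro a b; rfl }
  have hT0 : ∀ b, T b = 0 → b = 0 := by
    intro b hb
    have h1 : ∀ i ∈ s, (((b : Fin m → B) i : B) : Ω) * q i = 0 := by
      intro i hi
      have h2 : (b : Fin m → B) i = 0 := congrFun hb ⟨i, hi⟩
      rw [h2, Submodule.coe_zero, zero_mul]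
    have h3 : (fun i => (((b : Fin m → B) i : B) : Ω) * q i) ∈ K := by
      intro h
      have h4 := (mem_Deg.mp b.2) h
      change (((b : Fin m → B) h : B) : Ω) * q h * (p h / q h) = _
      rw [← h4]
      have := hq h
      field_simp
    have h5 := hsep _ h3 h1
    apply Subtype.ext
    funext i
    apply Subtype.ext
    have h6 := congrFun h5 i
    exact (mul_eq_zero.mp h6).resolve_right (hq i)
  have hT : Function.Injective T := by
    intro b b' h
    have h1 := hT0 (b - b') (by
      funext i
      have h2 : (b : Fin m → B) i = (b' : Fin m → B) i := congrFun h i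
      change (b : Fin m → B) i - (b' : Fin m → B) i = 0
      exact sub_eq_zero.mpr h2)
    exact sub_eq_zero.mp h1
  have h7 := LinearMap.finrank_le_finrank_of_injective hT
  rw [Module.finrank_pi_fintype, Finset.sum_const, Finset.card_univ, Fintype.card_coe,
    smul_eq_mul] at h7
  calc 2 * finrank k (Deg B p q c) ≤ 2 * (s.card * finrank k B) := Nat.mul_le_mul_left _ h7
    _ = (2 * s.card) * finrank k B := by ring
    _ ≤ m * finrank k B := Nat.mul_le_mul_right _ (by omega)

end Pool.Agent.HP778
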