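import Pool.Agent.HP778.Main

/-!
# Integrals of rational functions over subsets of the line: definitions and basic integrals
-/

set_option autoImplicit false

namespace Pool.Agent.HP778.KZ

open MeasureTheory Polynomial Set
open Pool.Agent.H301R2.SSE (QB mem_QB Lt Lt_mul Lt_alg Lt_log Lt_one)

/-- subsets of the line defined by polynomial inequalities with real algebraic coefficients -/
inductive SemiAlg : Set ℝ → Prop
  | pos (p : Polynomial (algebraicClosure ℚ ℝ)) : SemiAlg {x | 0 < aeval x p}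
  | compl {s : Set ℝ} : SemiAlg s → SemiAlg sᶜ
  | inter {s t : Set ℝ} : SemiAlg s → SemiAlg t → SemiAlg (s ∩ t)

theorem SemiAlg.measurableSet {s : Set ℝ} (h : SemiAlg s) : MeasurableSet s := by
  induction h with
  | pos p =>
    have : Continuous fun x : ℝ => aeval x p := p.continuous_aeval
    exact measurableSet_lt measurable_const this.measurable
  | compl _ ih => exact ih.compl
  | inter _ _ ih1 ih2 => exact ih1.inter ih2

theorem alg_real_root {p : Polynomial (algebraicClosure ℚ ℝ)} (hp : p ≠ 0) {x : ℝ}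
    (h : aeval x p = 0) : IsAlgebraic ℚ x := by
  have : Algebra.IsAlgebraic ℚ (algebraicClosure ℚ ℝ) := algebraicClosure.isAlgebraic ℚ ℝ
  have h1 : IsAlgebraic (algebraicClosure ℚ ℝ) x := ⟨p, hp, h⟩
  exact h1.restrictScalars ℚ

/-- membership is constant outside of finitely many algebraic numbers -/
theorem SemiAlg.const {s : Set ℝ} (h : SemiAlg s) : ∃ F : Finset ℝ, (∀ a ∈ F, IsAlgebraic ℚ a) ∧
    ∀ x y, x ≤ y → (∀ a ∈ F, a ∉ Icc x y) → (x ∈ s ↔ y ∈ s) := by
  classical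
  induction h with
  | pos p =>
    by_cases hp : p = 0
    · refine ⟨∅, by simp, fun x y _ _ => ?_⟩
      simp [hp]
    · refine ⟨(p.aroots ℝ).toFinset, fun a ha => ?_, fun x y hxy hF => ?_⟩
      · rw [Multiset.mem_toFinset, mem_aroots] at ha
        exact alg_real_root hp ha.2
      · have hne : ∀ z ∈ Icc x y, aeval z p ≠ 0 := by
          intro z hz h0
          refine hF z ?_ hz
          rw [Multiset.mem_toFinset, mem_aroots]
          exact ⟨hp, h0⟩
        have hc : ContinuousOn (fun z : ℝ => aeval z p) (Icc x y) :=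
          p.continuous_aeval.continuousOn
        constructor
        · intro hx
          by_contra hy
          have hx' : 0 < aeval x p := hx
          have hy' : aeval y p ≤ 0 := not_lt.mp hy
          obtain ⟨z, hz, hz0⟩ := intermediate_value_Icc' hxy hc ⟨hy', hx'.le⟩
          exact hne z hz hz0
        · intro hy
          by_contra hx
          have hy' : 0 < aeval y p := hy
          have hx' : aeval x p ≤ 0 := not_lt.mp hx
          obtain ⟨z, hz, hz0⟩ := intermediate_value_Icc hxy hc ⟨hx', hy'.le⟩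
          exact hne z hz hz0
  | compl _ ih =>
    obtain ⟨F, hF, h⟩ := ih
    exact ⟨F, hF, fun x y hxy hn => not_congr (h x y hxy hn)⟩
  | inter _ _ ih1 ih2 =>
    obtain ⟨F, hF, h⟩ := ih1
    obtain ⟨G, hG, h'⟩ := ih2
    refine ⟨F ∪ G, fun a ha => ?_, fun x y hxy hn => ?_⟩
    · rcases Finset.mem_union.mp ha with ha | ha
      · exact hF a ha
      · exact hG a ha
    · exact and_congr (h x y hxy fun a ha => hn a (Finset.mem_union_left _ ha))
        (h' x y hxy fun a ha => hn a (Finset.mem_union_right _ ha))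

/-! ### Basic integrals -/

theorem alg_ofReal {a : ℝ} (h : IsAlgebraic ℚ a) : IsAlgebraic ℚ (a : ℂ) := by
  have := h.algebraMap (A := ℂ)
  simpa using this

theorem alg_of_ofReal {a : ℝ} (h : IsAlgebraic ℚ (a : ℂ)) : IsAlgebraic ℚ a :=
  (isAlgebraic_algebraMap_iff (A := ℂ) (FaithfulSMul.algebraMap_injective ℝ ℂ)).mp (by
    simpa using h)

theorem alg_QB (c : QB) : IsAlgebraic ℚ (c : ℂ) := mem_QB.mp c.2

theorem integral_poly {a b : ℝ} (ha : IsAlgebraic ℚ a) (hb : IsAlgebraic ℚ b) (P : QB[X]) :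
    IsAlgebraic ℚ (∫ x in a..b, aeval (x : ℂ) P) := by
  induction P using Polynomial.induction_on' with
  | add p q hp hq =>
    have h1 : ∀ r : QB[X], IntervalIntegrable (fun x : ℝ => aeval (x : ℂ) r) volume a b := by
      intro r
      apply Continuous.intervalIntegrable
      exact r.continuous_aeval.comp Complex.continuous_ofReal
    have h2 : (∫ x in a..b, aeval (x : ℂ) (p + q)) =
        (∫ x in a..b, aeval (x : ℂ) p) + ∫ x in a..b, aeval (x : ℂ) q := by
      rw [← intervalIntegral.integral_add (h1 p) (h1 q)]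
      simp only [map_add]
    rw [h2]
    exact hp.add hq
  | monomial n c =>
    have h1 : (∫ x in a..b, aeval (x : ℂ) (monomial n c)) =
        (c : ℂ) * (((b ^ (n + 1) - a ^ (n + 1)) / (n + 1) : ℝ) : ℂ) := by
      rw [← integral_pow, ← intervalIntegral.integral_ofReal,
        ← intervalIntegral.integral_const_mul]
      refine intervalIntegral.integral_congr fun x _ => ?_
      simp only [aeval_monomial, Complex.ofReal_pow]
      rfl
    rw [h1]
    refine (alg_QB c).mul (alg_ofReal ?_)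
    refine (((hb.pow _).sub (ha.pow _))).mul (IsAlgebraic.inv ?_)
    exact_mod_cast isAlgebraic_natCast (n + 1)

theorem ne_of_notMem {a b : ℝ} {ρ : ℂ} (h : ∀ x ∈ Icc a b, (x : ℂ) ≠ ρ) {x : ℝ}
    (hx : x ∈ Icc a b) : (x : ℂ) - ρ ≠ 0 := sub_ne_zero.mpr (h x hx)

theorem hasDerivAt_sub (ρ : ℂ) (x : ℝ) : HasDerivAt (fun x : ℝ => (x : ℂ) - ρ) 1 x :=
  (Complex.ofRealCLM.hasDerivAt (x := x)).sub_const ρ

theorem integral_inv {a b : ℝ} (hab : a ≤ b) (ha : IsAlgebraic ℚ a) (hb : IsAlgebraic ℚ b)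
    {ρ : ℂ} (hρ : IsAlgebraic ℚ ρ) (h : ∀ x ∈ Icc a b, (x : ℂ) ≠ ρ) :
    (∫ x in a..b, ((x : ℂ) - ρ)⁻¹) ∈ Lt := by
  apply Lt_log
  have hcont : ∀ x ∈ Icc a b, ContinuousAt (fun x : ℝ => ((x : ℂ) - ρ)⁻¹) x := fun x hx =>
    (hasDerivAt_sub ρ x).continuousAt.inv₀ (ne_of_notMem h hx)
  have hint : ∀ x ∈ Icc a b, IntervalIntegrable (fun x : ℝ => ((x : ℂ) - ρ)⁻¹) volume a x := by
    intro x hx
    apply ContinuousOn.intervalIntegrable
    rw [uIcc_of_le hx.1]
    exact fun y hy => (hcont y ⟨hy.1, hy.2.trans hx.2⟩).continuousWithinAt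
  let G : ℝ → ℂ := fun x => ∫ s in a..x, ((s : ℂ) - ρ)⁻¹
  have hopen : IsOpen {x : ℝ | (x : ℂ) ≠ ρ} :=
    isOpen_ne_fun Complex.continuous_ofReal continuous_const
  have hmeas : ∀ x ∈ Icc a b, StronglyMeasurableAtFilter (fun x : ℝ => ((x : ℂ) - ρ)⁻¹)
      (nhds x) volume := by
    intro x hx
    refine ContinuousOn.stronglyMeasurableAtFilter hopen ?_ x (h x hx)
    intro y hy
    exact ((hasDerivAt_sub ρ y).continuousAt.inv₀ (sub_ne_zero.mpr hy)).continuousWithinAt
  have hG : ∀ x ∈ Icc a b, HasDerivAt G (((x : ℂ) - ρ)⁻¹) x := fun x hx =>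
    intervalIntegral.integral_hasDerivAt_right (hint x hx) (hmeas x hx) (hcont x hx)
  let H : ℝ → ℂ := fun x => Complex.exp (-G x) * ((x : ℂ) - ρ)
  have hH : ∀ x ∈ Icc a b, HasDerivAt H 0 x := by
    intro x hx
    have h1 := ((hG x hx).neg.cexp).mul (hasDerivAt_sub ρ x)
    have := ne_of_notMem h hx
    refine HasDerivAt.congr_deriv h1 ?_
    change Complex.exp (-G x) * -((x : ℂ) - ρ)⁻¹ * ((x : ℂ) - ρ) + Complex.exp (-G x) * 1 = 0
    field_simp
    ring
  have hconst := constant_of_has_deriv_right_zero (f := H) (a := a) (b := b)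
    (fun x hx => (hH x hx).continuousAt.continuousWithinAt)
    (fun x hx => (hH x ⟨hx.1, hx.2.le⟩).hasDerivWithinAt) b ⟨hab, le_rfl⟩
  have hGa : G a = 0 := intervalIntegral.integral_same
  simp only [H, hGa, neg_zero, Complex.exp_zero, one_mul] at hconst
  have hbne := ne_of_notMem h (right_mem_Icc.mpr hab)
  have hane := ne_of_notMem h (left_mem_Icc.mpr hab)
  have h2 : Complex.exp (G b) = ((b : ℂ) - ρ) / ((a : ℂ) - ρ) := by
    rw [Complex.exp_neg] at hconst
    have h3 : Complex.exp (G b) ≠ 0 := Complex.exp_ne_zero _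
    field_simp at hconst ⊢
    rw [← hconst]
  change IsAlgebraic ℚ (Complex.exp (G b))
  rw [h2, div_eq_mul_inv]
  exact ((alg_ofReal hb).sub hρ).mul (((alg_ofReal ha).sub hρ).inv)

theorem integral_inv_pow {a b : ℝ} (hab : a ≤ b) (ha : IsAlgebraic ℚ a) (hb : IsAlgebraic ℚ b)
    {ρ : ℂ} (hρ : IsAlgebraic ℚ ρ) (h : ∀ x ∈ Icc a b, (x : ℂ) ≠ ρ) (n : ℕ) :
    (∫ x in a..b, (((x : ℂ) - ρ)⁻¹) ^ (n + 1)) ∈ Lt := by
  rcases Nat.eq_zero_or_pos n with rfl | hn
  · simpa using integral_inv hab ha hb hρ h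
  have hder : ∀ x ∈ uIcc a b, HasDerivAt (fun x : ℝ => -((((x : ℂ) - ρ)⁻¹) ^ n) / n)
      ((((x : ℂ) - ρ)⁻¹) ^ (n + 1)) x := by
    intro x hx
    rw [uIcc_of_le hab] at hx
    have hne := ne_of_notMem h hx
    have h1 := (((hasDerivAt_sub ρ x).inv hne).pow n).neg.div_const (n : ℂ)
    have hn' : (n : ℂ) ≠ 0 := by exact_mod_cast hn.ne'
    refine HasDerivAt.congr_deriv h1 ?_
    change -(↑n * (((x : ℂ) - ρ)⁻¹) ^ (n - 1) * (-1 / ((x : ℂ) - ρ) ^ 2)) / ↑n = _
    obtain ⟨k, rfl⟩ : ∃ k, n = k + 1 := ⟨n - 1, by omega⟩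
    rw [Nat.add_sub_cancel, neg_div _ (1 : ℂ), one_div, ← inv_pow, div_eq_iff hn']
    ring
  have hcont : ContinuousOn (fun x : ℝ => (((x : ℂ) - ρ)⁻¹) ^ (n + 1)) (uIcc a b) := by
    rw [uIcc_of_le hab]
    intro x hx
    exact (((hasDerivAt_sub ρ x).continuousAt.inv₀ (ne_of_notMem h hx)).pow _).continuousWithinAt
  rw [intervalIntegral.integral_eq_sub_of_hasDerivAt hder hcont.intervalIntegrable]
  apply Lt_alg
  have hn' : IsAlgebraic ℚ ((n : ℂ)) := by exact_mod_cast isAlgebraic_natCast n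
  have hx : ∀ x : ℝ, IsAlgebraic ℚ x → IsAlgebraic ℚ (-((((x : ℂ) - ρ)⁻¹) ^ n) / n) := by
    intro x hx
    rw [div_eq_mul_inv]
    exact ((((alg_ofReal hx).sub hρ).inv.pow n).neg).mul hn'.inv
  exact (hx b hb).sub (hx a ha)

end Pool.Agent.HP778.KZ
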