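import Pool.Agent.HP778.KZ1

/-!
# Integrals of rational functions over intervals with algebraic endpoints
-/

set_option autoImplicit false

namespace Pool.Agent.HP778.KZ

open MeasureTheory Polynomial Set
open Pool.Agent.H301R2.SSE (QB mem_QB Lt Lt_mul Lt_alg Lt_log Lt_one)

/-- the values of a rational function -/
noncomputable def rat (P Q : QB[X]) (x : ℝ) : ℂ := aeval (x : ℂ) P / aeval (x : ℂ) Q

theorem continuous_aeval' (P : QB[X]) : Continuous fun x : ℝ => aeval (x : ℂ) P :=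
  P.continuous_aeval.comp Complex.continuous_ofReal

theorem rat_continuousAt (P Q : QB[X]) {x : ℝ} (h : aeval (x : ℂ) Q ≠ 0) :
    ContinuousAt (rat P Q) x :=
  (continuous_aeval' P).continuousAt.div (continuous_aeval' Q).continuousAt h

theorem rat_measurable (P Q : QB[X]) : Measurable (rat P Q) :=
  (continuous_aeval' P).measurable.div (continuous_aeval' Q).measurable

theorem integral_rat {a b : ℝ} (hab : a ≤ b) (ha : IsAlgebraic ℚ a) (hb : IsAlgebraic ℚ b) :
    ∀ (n : ℕ) (P Q : QB[X]), Q.natDegree = n → Q ≠ 0 →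
      (∀ x ∈ Icc a b, aeval (x : ℂ) Q ≠ 0) → (∫ x in a..b, rat P Q x) ∈ Lt := by
  have : IsAlgClosed QB := (algebraicClosure.isAlgClosure ℚ ℂ).isAlgClosed
  intro n
  induction n with
  | zero =>
    intro P Q hn hQ _
    rw [eq_C_of_natDegree_eq_zero hn] at hQ ⊢
    set c := Q.coeff 0 with hc
    have h1 : (∫ x in a..b, rat P (C c) x) = ((c⁻¹ : QB) : ℂ) * ∫ x in a..b, aeval (x : ℂ) P := by
      rw [← intervalIntegral.integral_const_mul]
      refine intervalIntegral.integral_congr fun x _ => ?_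
      simp only [rat, aeval_C]
      rw [div_eq_inv_mul]
      rfl
    rw [h1]
    exact Lt_mul (alg_QB _) (Lt_alg (integral_poly ha hb P))
  | succ n ih =>
    intro P Q hn hQ hQ0
    obtain ⟨ρ, hρ⟩ := IsAlgClosed.exists_root Q (by
      intro h
      have := natDegree_eq_zero_iff_degree_le_zero.mpr h.le
      omega)
    obtain ⟨Q₁, hQ₁, hQ₁'⟩ := exists_eq_pow_rootMultiplicity_mul_and_not_dvd Q hQ ρ
    have hm : 0 < rootMultiplicity ρ Q := (rootMultiplicity_pos hQ).mpr hρ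
    obtain ⟨k, hk⟩ : ∃ k, rootMultiplicity ρ Q = k + 1 := ⟨_, (Nat.succ_pred_eq_of_pos hm).symm⟩
    rw [hk] at hQ₁
    have hQ₁ρ : Q₁.eval ρ ≠ 0 := fun h => hQ₁' (dvd_iff_isRoot.mpr h)
    set c := P.eval ρ / Q₁.eval ρ with hc
    obtain ⟨P₂, hP₂⟩ : (X - C ρ) ∣ P - C c * Q₁ := by
      rw [dvd_iff_isRoot, IsRoot.def, eval_sub, eval_mul, eval_C, hc, div_mul_cancel₀ _ hQ₁ρ,
        sub_self]
    set Q' := (X - C ρ) ^ k * Q₁ with hQ'
    have hQQ' : Q = (X - C ρ) * Q' := by rw [hQ₁, hQ', pow_succ]; ring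
    have hQ'0 : Q' ≠ 0 := by
      intro h
      apply hQ
      rw [hQQ', h, mul_zero]
    have hQ'n : Q'.natDegree = n := by
      have h1 : Q.natDegree = 1 + Q'.natDegree := by
        rw [hQQ', natDegree_mul (X_sub_C_ne_zero ρ) hQ'0, natDegree_X_sub_C]
      omega
    have hX : ∀ x : ℝ, aeval (x : ℂ) (X - C ρ) = (x : ℂ) - ρ := by
      intro x
      rw [map_sub, aeval_X, aeval_C]
      rfl
    have hne : ∀ x ∈ Icc a b, (x : ℂ) - ρ ≠ 0 ∧ aeval (x : ℂ) Q' ≠ 0 := by
      intro x hx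
      have h1 := hQ0 x hx
      rw [hQQ', map_mul, hX] at h1
      exact mul_ne_zero_iff.mp h1
    have hsplit : ∀ x ∈ Icc a b, rat P Q x =
        (c : ℂ) * (((x : ℂ) - ρ)⁻¹) ^ (k + 1) + rat P₂ Q' x := by
      intro x hx
      obtain ⟨h1, h2⟩ := hne x hx
      have h3 : aeval (x : ℂ) P = (c : ℂ) * aeval (x : ℂ) Q₁ + ((x : ℂ) - ρ) * aeval (x : ℂ) P₂ := by
        have h4 := congrArg (aeval (x : ℂ)) hP₂
        rw [map_sub, map_mul, map_mul, hX, aeval_C] at h4
        have h5 : aeval (x : ℂ) P = algebraMap QB ℂ c * aeval (x : ℂ) Q₁ +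
            ((x : ℂ) - ρ) * aeval (x : ℂ) P₂ := by linear_combination h4
        exact h5
      have h6 : aeval (x : ℂ) Q' = ((x : ℂ) - ρ) ^ k * aeval (x : ℂ) Q₁ := by
        rw [hQ', map_mul, map_pow, hX]
      have h7 : aeval (x : ℂ) Q = ((x : ℂ) - ρ) * (((x : ℂ) - ρ) ^ k * aeval (x : ℂ) Q₁) := by
        rw [hQQ', map_mul, hX, h6]
      have h8 : aeval (x : ℂ) Q₁ ≠ 0 := by
        rw [h6] at h2
        exact right_ne_zero_of_mul h2
      simp only [rat]
      rw [h3, h6, h7, inv_pow]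
      field_simp
      ring
    have hcongr : (∫ x in a..b, rat P Q x) =
        (c : ℂ) * (∫ x in a..b, (((x : ℂ) - ρ)⁻¹) ^ (k + 1)) + ∫ x in a..b, rat P₂ Q' x := by
      rw [← intervalIntegral.integral_const_mul, ← intervalIntegral.integral_add]
      · refine intervalIntegral.integral_congr fun x hx => ?_
        rw [uIcc_of_le hab] at hx
        exact hsplit x hx
      · apply ContinuousOn.intervalIntegrable
        rw [uIcc_of_le hab]
        intro x hx
        exact (((hasDerivAt_sub ρ x).continuousAt.inv₀ (hne x hx).1).pow _).const_mul _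
          |>.continuousWithinAt
      · apply ContinuousOn.intervalIntegrable
        rw [uIcc_of_le hab]
        intro x hx
        exact (rat_continuousAt P₂ Q' (hne x hx).2).continuousWithinAt
    rw [hcongr]
    refine Lt.add_mem (Lt_mul (alg_QB c) ?_) (ih P₂ Q' hQ'n hQ'0 fun x hx => (hne x hx).2)
    exact integral_inv_pow hab ha hb (alg_QB ρ) (fun x hx => sub_ne_zero.mp (hne x hx).1) k

/-- a reduced fraction with a pole at an endpoint is not integrable -/
theorem not_integrable {P Q : QB[X]} (hPQ : IsCoprime P Q) (hQ : Q ≠ 0) {a b c : ℝ} (hab : a ≠ b)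
    (hc : c ∈ uIcc a b) (hQc : aeval (c : ℂ) Q = 0) : ¬ IntervalIntegrable (rat P Q) volume a b := by
  have hPc : aeval (c : ℂ) P ≠ 0 := by
    intro h
    obtain ⟨u, v, huv⟩ := hPQ
    have h1 := congrArg (aeval (c : ℂ)) huv
    rw [map_add, map_mul, map_mul, h, hQc, mul_zero, mul_zero, add_zero, map_one] at h1
    exact zero_ne_one h1
  refine not_intervalIntegrable_of_sub_inv_isBigO_punctured (c := c) ?_ hab hc
  -- the root
  have hcalg : IsAlgebraic ℚ (c : ℂ) := by
    have : Algebra.IsAlgebraic ℚ QB := algebraicClosure.isAlgebraic ℚ ℂ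
    have h1 : IsAlgebraic QB (c : ℂ) := ⟨Q, hQ, hQc⟩
    exact h1.restrictScalars ℚ
  let c' : QB := ⟨c, mem_QB.mpr hcalg⟩
  have hroot : Q.IsRoot c' := by
    rw [IsRoot.def]
    have h1 : algebraMap QB ℂ (Q.eval c') = 0 := by
      rw [← aeval_algebraMap_apply_eq_algebraMap_eval]
      exact hQc
    exact (map_eq_zero _).mp h1
  obtain ⟨Q₁, hQ₁⟩ := dvd_iff_isRoot.mpr hroot
  have hX : ∀ x : ℝ, aeval (x : ℂ) Q = ((x : ℂ) - c) * aeval (x : ℂ) Q₁ := by
    intro x
    rw [hQ₁, map_mul, map_sub, aeval_X, aeval_C]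
    rfl
  -- `Q` does not vanish near `c`
  have hev : ∀ᶠ x : ℝ in nhdsWithin c {c}ᶜ, aeval (x : ℂ) Q ≠ 0 := by
    have hfin : {x : ℝ | aeval (x : ℂ) Q = 0}.Finite := by
      have h1 : {z : ℂ | aeval z Q = 0}.Finite := by
        refine (Q.rootSet_finite ℂ).subset ?_
        intro z hz
        exact (mem_rootSet.mpr ⟨hQ, hz⟩)
      exact (h1.preimage (Complex.ofReal_injective.injOn))
    have h2 : ({x : ℝ | aeval (x : ℂ) Q = 0} \ {c}).Finite := hfin.sdiff
    have h3 := h2.isClosed.isOpen_compl.mem_nhds (x := c) (by simp)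
    rw [eventually_nhdsWithin_iff]
    filter_upwards [h3] with x hx hxc hx0
    exact hx ⟨hx0, hxc⟩
  have hcont : ContinuousAt (fun x : ℝ => aeval (x : ℂ) Q₁ / aeval (x : ℂ) P) c :=
    (continuous_aeval' Q₁).continuousAt.div (continuous_aeval' P).continuousAt hPc
  obtain ⟨K, hK⟩ := (hcont.tendsto.mono_left nhdsWithin_le_nhds :
    Filter.Tendsto _ (nhdsWithin c {c}ᶜ) _).isBigO_one ℝ |>.bound
  have hP' : ∀ᶠ x : ℝ in nhdsWithin c {c}ᶜ, aeval (x : ℂ) P ≠ 0 :=
    ((continuous_aeval' P).continuousAt.eventually_ne hPc).filter_mono nhdsWithin_le_nhds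
  refine Asymptotics.IsBigO.of_bound K ?_
  filter_upwards [hev, hK, hP'] with x hx hxK hxP
  have h4 : ((x : ℂ) - c) ≠ 0 ∧ aeval (x : ℂ) Q₁ ≠ 0 := by
    rw [hX] at hx
    exact mul_ne_zero_iff.mp hx
  have h5 : (((x - c)⁻¹ : ℝ) : ℂ) = aeval (x : ℂ) Q₁ / aeval (x : ℂ) P * rat P Q x := by
    simp only [rat]
    rw [hX, Complex.ofReal_inv, Complex.ofReal_sub]
    have := h4.1
    have := h4.2
    field_simp
  rw [← Complex.norm_real, h5, norm_mul]
  rw [norm_one, mul_one] at hxK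
  exact mul_le_mul_of_nonneg_right hxK (norm_nonneg _)

/-- bounded intervals -/
theorem integral_Ioo {a b : ℝ} (ha : IsAlgebraic ℚ a) (hb : IsAlgebraic ℚ b) (P Q : QB[X])
    (hQ : Q ≠ 0) (h0 : ∀ x ∈ Ioo a b, aeval (x : ℂ) Q ≠ 0) (hi : IntegrableOn (rat P Q) (Ioo a b)) :
    (∫ x in Ioo a b, rat P Q x) ∈ Lt := by
  classical
  rcases le_or_gt b a with hab | hab
  · rw [Ioo_eq_empty (not_lt.mpr hab), Measure.restrict_empty, integral_zero_measure]
    exact Lt.zero_mem
  let _ : GCDMonoid QB[X] := EuclideanDomain.gcdMonoid QB[X]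
  obtain ⟨P', Q', hP, hQ', hu⟩ := extract_gcd P Q
  have hcop : IsCoprime P' Q' := (gcd_isUnit_iff P' Q').mp hu
  set g := gcd P Q with hg
  have hg0 : g ≠ 0 := fun h => hQ (by rw [hQ', h, zero_mul])
  have hQ'0 : Q' ≠ 0 := fun h => hQ (by rw [hQ', h, mul_zero])
  have hne : ∀ x ∈ Ioo a b, aeval (x : ℂ) Q' ≠ 0 := by
    intro x hx h
    apply h0 x hx
    rw [hQ', map_mul, h, mul_zero]
  have hrat : ∀ x ∈ Ioo a b, rat P Q x = rat P' Q' x := by
    intro x hx
    have h1 := h0 x hx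
    rw [hQ', map_mul] at h1
    simp only [rat]
    have h2 : aeval (x : ℂ) P = aeval (x : ℂ) g * aeval (x : ℂ) P' := by
      rw [← map_mul, ← hP]
    have h3 : aeval (x : ℂ) Q = aeval (x : ℂ) g * aeval (x : ℂ) Q' := by
      rw [← map_mul, ← hQ']
    rw [h2, h3, mul_div_mul_left _ _ (left_ne_zero_of_mul h1)]
  have hi' : IntegrableOn (rat P' Q') (Ioo a b) :=
    (integrableOn_congr_fun hrat measurableSet_Ioo).mp hi
  have hii : IntervalIntegrable (rat P' Q') volume a b :=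
    (intervalIntegrable_iff_integrableOn_Ioo_of_le hab.le).mpr hi'
  have hne' : ∀ x ∈ Icc a b, aeval (x : ℂ) Q' ≠ 0 := by
    intro x hx h
    exact not_integrable hcop hQ'0 hab.ne (by rw [uIcc_of_le hab.le]; exact hx) h hii
  rw [setIntegral_congr_fun measurableSet_Ioo hrat, ← integral_Ioc_eq_integral_Ioo,
    ← intervalIntegral.integral_of_le hab.le]
  exact integral_rat hab.le ha hb _ P' Q' rfl hQ'0 hne'

end Pool.Agent.HP778.KZ
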