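import Pool.Agent.HP778.KZ2

/-!
# Integrals of rational functions over unbounded intervals and over semialgebraic sets
-/

set_option autoImplicit false

namespace Pool.Agent.HP778.KZ

open MeasureTheory Polynomial Set
open Pool.Agent.H301R2.SSE (QB mem_QB Lt Lt_mul Lt_alg Lt_log Lt_one)

theorem aeval_inv (P : QB[X]) {z : ℂ} (hz : z ≠ 0) :
    aeval z⁻¹ P = aeval z P.reverse * (z⁻¹) ^ P.natDegree := by
  let _ : Invertible (z⁻¹) := invertibleOfNonzero (inv_ne_zero hz)
  have h := eval₂_reverse_mul_pow (algebraMap QB ℂ) (z⁻¹) P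
  rw [invOf_eq_inv, inv_inv] at h
  exact h.symm

theorem inv_image {c : ℝ} (hc : 0 < c) : (fun x : ℝ => x⁻¹) '' Ioo 0 c⁻¹ = Ioi c := by
  ext y
  constructor
  · rintro ⟨x, hx, rfl⟩
    have := inv_strictAnti₀ hx.1 hx.2
    rw [inv_inv] at this
    exact this
  · intro hy
    have hy' : c < y := hy
    refine ⟨y⁻¹, ⟨inv_pos.mpr (hc.trans hy'), inv_strictAnti₀ hc hy'⟩, inv_inv y⟩

theorem integral_Ioi_pos {c : ℝ} (hc : 0 < c) (hca : IsAlgebraic ℚ c) (P Q : QB[X]) (hQ : Q ≠ 0)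
    (h0 : ∀ x ∈ Ioi c, aeval (x : ℂ) Q ≠ 0) (hi : IntegrableOn (rat P Q) (Ioi c)) :
    (∫ x in Ioi c, rat P Q x) ∈ Lt := by
  set P' := P.reverse * X ^ Q.natDegree with hP'
  set Q' := Q.reverse * X ^ (P.natDegree + 2) with hQ'
  have hQ'0 : Q' ≠ 0 := mul_ne_zero (by rwa [Ne, reverse_eq_zero]) (pow_ne_zero _ X_ne_zero)
  have hder : ∀ x ∈ Ioo 0 c⁻¹, HasDerivWithinAt (fun x : ℝ => x⁻¹) (-(x ^ 2)⁻¹) (Ioo 0 c⁻¹) x :=
    fun x hx => (hasDerivAt_inv hx.1.ne').hasDerivWithinAt
  have hinj : InjOn (fun x : ℝ => x⁻¹) (Ioo 0 c⁻¹) := inv_injective.injOn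
  have heq : ∀ x ∈ Ioo 0 c⁻¹, |(-(x ^ 2)⁻¹)| • rat P Q (x⁻¹) = rat P' Q' x := by
    intro x hx
    have hx0 : (x : ℂ) ≠ 0 := by exact_mod_cast hx.1.ne'
    have h1 : aeval (((x⁻¹ : ℝ)) : ℂ) Q ≠ 0 := h0 _ (by rw [← inv_image hc]; exact ⟨x, hx, rfl⟩)
    rw [Complex.ofReal_inv, aeval_inv Q hx0] at h1
    have h2 := left_ne_zero_of_mul h1
    simp only [rat]
    rw [hP', hQ', map_mul, map_mul, map_pow, map_pow, aeval_X, Complex.ofReal_inv,
      aeval_inv P hx0, aeval_inv Q hx0, abs_neg, abs_of_nonneg (by positivity),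
      Complex.real_smul, Complex.ofReal_inv, Complex.ofReal_pow, inv_pow, inv_pow]
    field_simp
    ring
  have h3 : (∫ x in Ioi c, rat P Q x) = ∫ x in Ioo 0 c⁻¹, rat P' Q' x := by
    rw [← inv_image hc, integral_image_eq_integral_abs_deriv_smul measurableSet_Ioo hder hinj]
    exact setIntegral_congr_fun measurableSet_Ioo heq
  rw [h3]
  refine integral_Ioo (isAlgebraic_zero) hca.inv P' Q' hQ'0 ?_ ?_
  · intro x hx
    have hx0 : (x : ℂ) ≠ 0 := by exact_mod_cast hx.1.ne'
    have h1 : aeval (((x⁻¹ : ℝ)) : ℂ) Q ≠ 0 := h0 _ (by rw [← inv_image hc]; exact ⟨x, hx, rfl⟩)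
    rw [Complex.ofReal_inv, aeval_inv Q hx0] at h1
    rw [hQ', map_mul, map_pow, aeval_X]
    exact mul_ne_zero (left_ne_zero_of_mul h1) (pow_ne_zero _ hx0)
  · rw [← inv_image hc,
      integrableOn_image_iff_integrableOn_abs_deriv_smul measurableSet_Ioo hder hinj] at hi
    exact (integrableOn_congr_fun heq measurableSet_Ioo).mp hi

theorem integral_Ioi {a : ℝ} (ha : IsAlgebraic ℚ a) (P Q : QB[X]) (hQ : Q ≠ 0)
    (h0 : ∀ x ∈ Ioi a, aeval (x : ℂ) Q ≠ 0) (hi : IntegrableOn (rat P Q) (Ioi a)) :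
    (∫ x in Ioi a, rat P Q x) ∈ Lt := by
  obtain ⟨N, hN⟩ := exists_nat_gt (max a 0)
  have haN : a < N := (le_max_left _ _).trans_lt hN
  have hN0 : (0 : ℝ) < N := (le_max_right _ _).trans_lt hN
  have hNa : IsAlgebraic ℚ (N : ℝ) := isAlgebraic_natCast N
  rw [← Ioc_union_Ioi_eq_Ioi haN.le, setIntegral_union Ioc_disjoint_Ioi_same measurableSet_Ioi
    (hi.mono_set Ioc_subset_Ioi_self) (hi.mono_set (Ioi_subset_Ioi haN.le)),
    integral_Ioc_eq_integral_Ioo]
  refine Lt.add_mem ?_ ?_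
  · exact integral_Ioo ha hNa P Q hQ (fun x hx => h0 x hx.1) (hi.mono_set Ioo_subset_Ioi_self)
  · exact integral_Ioi_pos hN0 hNa P Q hQ (fun x hx => h0 x (haN.trans hx))
      (hi.mono_set (Ioi_subset_Ioi haN.le))

theorem neg_image (b : ℝ) : (fun x : ℝ => -x) '' Ioi (-b) = Iio b := by
  ext y
  constructor
  · rintro ⟨x, hx, rfl⟩
    have : -b < x := hx
    change -x < b
    linarith
  · intro hy
    have : y < b := hy
    exact ⟨-y, by change -b < -y; linarith, neg_neg y⟩

theorem integral_Iio {b : ℝ} (hb : IsAlgebraic ℚ b) (P Q : QB[X]) (hQ : Q ≠ 0)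
    (h0 : ∀ x ∈ Iio b, aeval (x : ℂ) Q ≠ 0) (hi : IntegrableOn (rat P Q) (Iio b)) :
    (∫ x in Iio b, rat P Q x) ∈ Lt := by
  have hder : ∀ x ∈ Ioi (-b), HasDerivWithinAt (fun x : ℝ => -x) (-1) (Ioi (-b)) x :=
    fun x _ => (hasDerivAt_neg x).hasDerivWithinAt
  have hinj : InjOn (fun x : ℝ => -x) (Ioi (-b)) := neg_injective.injOn
  have hcomp : ∀ (R : QB[X]) (x : ℝ), aeval (x : ℂ) (R.comp (-X)) = aeval (((-x : ℝ)) : ℂ) R := by
    intro R x
    rw [aeval_comp, map_neg, aeval_X, Complex.ofReal_neg]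
  have heq : ∀ x ∈ Ioi (-b), |(-1 : ℝ)| • rat P Q (-x) = rat (P.comp (-X)) (Q.comp (-X)) x := by
    intro x _
    rw [abs_neg, abs_one, one_smul]
    simp only [rat]
    rw [hcomp, hcomp]
  have hQ' : Q.comp (-X) ≠ 0 := by
    intro h
    apply hQ
    have h1 := congrArg (fun R : QB[X] => R.comp (-X)) h
    simp only [zero_comp] at h1
    rw [comp_assoc, neg_comp, X_comp, neg_neg, comp_X] at h1
    exact h1
  have h3 : (∫ x in Iio b, rat P Q x) =
      ∫ x in Ioi (-b), rat (P.comp (-X)) (Q.comp (-X)) x := by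
    rw [← neg_image b, integral_image_eq_integral_abs_deriv_smul measurableSet_Ioi hder hinj]
    exact setIntegral_congr_fun measurableSet_Ioi heq
  rw [h3]
  refine integral_Ioi hb.neg _ _ hQ' ?_ ?_
  · intro x hx
    rw [hcomp]
    exact h0 _ (by rw [← neg_image b]; exact ⟨x, hx, rfl⟩)
  · rw [← neg_image b,
      integrableOn_image_iff_integrableOn_abs_deriv_smul measurableSet_Ioi hder hinj] at hi
    exact (integrableOn_congr_fun heq measurableSet_Ioi).mp hi

/-- open intervals with algebraic endpoints -/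
inductive Intv : Set ℝ → Prop
  | all : Intv univ
  | lt (a : ℝ) (ha : IsAlgebraic ℚ a) : Intv (Iio a)
  | gt (a : ℝ) (ha : IsAlgebraic ℚ a) : Intv (Ioi a)
  | mid (a b : ℝ) (ha : IsAlgebraic ℚ a) (hb : IsAlgebraic ℚ b) : Intv (Ioo a b)

theorem Intv.measurableSet {J : Set ℝ} (h : Intv J) : MeasurableSet J := by
  cases h with
  | all => exact MeasurableSet.univ
  | lt => exact measurableSet_Iio
  | gt => exact measurableSet_Ioi
  | mid => exact measurableSet_Ioo

theorem Intv.ordConnected {J : Set ℝ} (h : Intv J) : OrdConnected J := by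
  cases h with
  | all => exact ordConnected_univ
  | lt => exact ordConnected_Iio
  | gt => exact ordConnected_Ioi
  | mid => exact ordConnected_Ioo

theorem alg_min {a b : ℝ} (ha : IsAlgebraic ℚ a) (hb : IsAlgebraic ℚ b) :
    IsAlgebraic ℚ (min a b) := by
  rcases min_choice a b with h | h <;> rw [h] <;> assumption

theorem alg_max {a b : ℝ} (ha : IsAlgebraic ℚ a) (hb : IsAlgebraic ℚ b) :
    IsAlgebraic ℚ (max a b) := by
  rcases max_choice a b with h | h <;> rw [h] <;> assumption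

theorem Intv.inter_Iio {J : Set ℝ} (h : Intv J) {a : ℝ} (ha : IsAlgebraic ℚ a) :
    Intv (J ∩ Iio a) := by
  cases h with
  | all => rw [univ_inter]; exact .lt a ha
  | lt b hb => rw [Iio_inter_Iio]; exact .lt _ (alg_min hb ha)
  | gt b hb => rw [Ioi_inter_Iio]; exact .mid _ _ hb ha
  | mid b c hb hc =>
    rw [← Ioi_inter_Iio, inter_assoc, Iio_inter_Iio, Ioi_inter_Iio]
    exact .mid _ _ hb (alg_min hc ha)

theorem Intv.inter_Ioi {J : Set ℝ} (h : Intv J) {a : ℝ} (ha : IsAlgebraic ℚ a) :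
    Intv (J ∩ Ioi a) := by
  cases h with
  | all => rw [univ_inter]; exact .gt a ha
  | lt b hb => rw [inter_comm, Ioi_inter_Iio]; exact .mid _ _ ha hb
  | gt b hb => rw [Ioi_inter_Ioi]; exact .gt _ (alg_max hb ha)
  | mid b c hb hc =>
    rw [← Ioi_inter_Iio, inter_right_comm, Ioi_inter_Ioi, Ioi_inter_Iio]
    exact .mid _ _ (alg_max hb ha) hc

theorem integral_Intv {J : Set ℝ} (h : Intv J) (P Q : QB[X]) (hQ : Q ≠ 0)
    (h0 : ∀ x ∈ J, aeval (x : ℂ) Q ≠ 0) (hi : IntegrableOn (rat P Q) J) :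
    (∫ x in J, rat P Q x) ∈ Lt := by
  cases h with
  | all =>
    rw [← Iio_union_Ici (a := (0 : ℝ))] at hi ⊢
    rw [setIntegral_union (Iio_disjoint_Ici le_rfl) measurableSet_Ici hi.left_of_union
      hi.right_of_union, integral_Ici_eq_integral_Ioi]
    refine Lt.add_mem ?_ ?_
    · exact integral_Iio isAlgebraic_zero P Q hQ (fun x _ => h0 x (mem_univ _)) hi.left_of_union
    · exact integral_Ioi isAlgebraic_zero P Q hQ (fun x _ => h0 x (mem_univ _))
        (hi.right_of_union.mono_set Ioi_subset_Ici_self)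
  | lt b hb => exact integral_Iio hb P Q hQ h0 hi
  | gt b hb => exact integral_Ioi hb P Q hQ h0 hi
  | mid a b ha hb => exact integral_Ioo ha hb P Q hQ h0 hi

/-- the real zeros of a polynomial -/
theorem exists_zeros (Q : QB[X]) (hQ : Q ≠ 0) : ∃ F : Finset ℝ, (∀ a ∈ F, IsAlgebraic ℚ a) ∧
    ∀ x : ℝ, aeval (x : ℂ) Q = 0 → x ∈ F := by
  have hfin : {x : ℝ | aeval (x : ℂ) Q = 0}.Finite := by
    have h1 : {z : ℂ | aeval z Q = 0}.Finite := by
      refine (Q.rootSet_finite ℂ).subset ?_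
      intro z hz
      exact (mem_rootSet.mpr ⟨hQ, hz⟩)
    exact (h1.preimage (Complex.ofReal_injective.injOn))
  refine ⟨hfin.toFinset, fun a ha => ?_, fun x hx => by simpa using hx⟩
  have h1 : aeval (a : ℂ) Q = 0 := by simpa using ha
  have : Algebra.IsAlgebraic ℚ QB := algebraicClosure.isAlgebraic ℚ ℂ
  have h2 : IsAlgebraic QB (a : ℂ) := ⟨Q, hQ, h1⟩
  exact alg_of_ofReal (h2.restrictScalars ℚ)

/-- **Integrals of rational functions over semialgebraic subsets of the line are linear forms in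
logarithms.** -/
theorem integral_mem_Lt {σ : Set ℝ} (hσ : SemiAlg σ) (P Q : QB[X]) (hQ : Q ≠ 0)
    (hi : IntegrableOn (rat P Q) σ) : (∫ x in σ, rat P Q x) ∈ Lt := by
  classical
  obtain ⟨F₁, hF₁, hconst⟩ := hσ.const
  obtain ⟨F₂, hF₂, hzero⟩ := exists_zeros Q hQ
  set F := F₁ ∪ F₂ with hF
  have hFa : ∀ a ∈ F, IsAlgebraic ℚ a := fun a ha => by
    rcases Finset.mem_union.mp ha with h | h
    · exact hF₁ a h
    · exact hF₂ a h
  have main : ∀ (n : ℕ) (J : Set ℝ), Intv J → (F.filter (· ∈ J)).card ≤ n →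
      (∫ x in σ ∩ J, rat P Q x) ∈ Lt := by
    intro n
    induction n with
    | zero =>
      intro J hJ hc
      have hempty : ∀ a ∈ F, a ∉ J := by
        intro a ha haJ
        have h1 : a ∈ F.filter (· ∈ J) := Finset.mem_filter.mpr ⟨ha, haJ⟩
        rw [Finset.card_eq_zero.mp (Nat.le_zero.mp hc)] at h1
        exact absurd h1 (Finset.notMem_empty a)
      rcases (σ ∩ J).eq_empty_or_nonempty with h | ⟨x, hxσ, hxJ⟩
      · rw [h, Measure.restrict_empty, integral_zero_measure]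
        exact Lt.zero_mem
      · have hsub : J ⊆ σ := by
          intro y hy
          rcases le_total x y with hxy | hxy
          · exact (hconst x y hxy fun a ha hax => hempty a (Finset.mem_union_left _ ha)
              (hJ.ordConnected.out hxJ hy hax)).mp hxσ
          · exact (hconst y x hxy fun a ha hax => hempty a (Finset.mem_union_left _ ha)
              (hJ.ordConnected.out hy hxJ hax)).mpr hxσ
        rw [inter_eq_self_of_subset_right hsub]
        exact integral_Intv hJ P Q hQ (fun z hz hz0 =>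
          hempty z (Finset.mem_union_right _ (hzero z hz0)) hz) (hi.mono_set hsub)
    | succ n ih =>
      intro J hJ hc
      by_cases hle : (F.filter (· ∈ J)).card ≤ n
      · exact ih J hJ hle
      obtain ⟨a, ha⟩ : (F.filter (· ∈ J)).Nonempty := by
        rw [← Finset.card_pos]; omega
      obtain ⟨haF, haJ⟩ := Finset.mem_filter.mp ha
      have haa := hFa a haF
      have hcard : ∀ K : Set ℝ, K ⊆ J → a ∉ K → (F.filter (· ∈ K)).card ≤ n := by
        intro K hK haK
        have h1 : F.filter (· ∈ K) ⊆ (F.filter (· ∈ J)).erase a := by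
          intro b hb
          obtain ⟨hbF, hbK⟩ := Finset.mem_filter.mp hb
          refine Finset.mem_erase.mpr ⟨fun h => haK (h ▸ hbK), Finset.mem_filter.mpr ⟨hbF, hK hbK⟩⟩
        have h2 := Finset.card_le_card h1
        rw [Finset.card_erase_of_mem ha] at h2
        omega
      have h1 : (∫ x in σ ∩ J, rat P Q x) =
          (∫ x in σ ∩ (J ∩ Iio a), rat P Q x) + ∫ x in σ ∩ (J ∩ Ioi a), rat P Q x := by
        have hdisj : Disjoint (σ ∩ (J ∩ Iio a)) (σ ∩ (J ∩ Ioi a)) := by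
          rw [Set.disjoint_left]
          rintro x ⟨-, -, hx⟩ ⟨-, -, hx'⟩
          exact lt_asymm (show x < a from hx) (show a < x from hx')
        rw [← setIntegral_union hdisj
          (hσ.measurableSet.inter (hJ.measurableSet.inter measurableSet_Ioi))
          (hi.mono_set inter_subset_left) (hi.mono_set inter_subset_left)]
        apply setIntegral_congr_set
        have h3 : ∀ᵐ x ∂(volume : Measure ℝ), x ≠ a := by
          rw [ae_iff]
          simp
        filter_upwards [h3] with x hx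
        apply propext
        change x ∈ σ ∩ J ↔ x ∈ σ ∩ (J ∩ Iio a) ∪ σ ∩ (J ∩ Ioi a)
        constructor
        · rintro ⟨h4, h5⟩
          rcases lt_or_gt_of_ne hx with h6 | h6
          · exact Or.inl ⟨h4, h5, h6⟩
          · exact Or.inr ⟨h4, h5, h6⟩
        · rintro (⟨h4, h5, -⟩ | ⟨h4, h5, -⟩) <;> exact ⟨h4, h5⟩
      rw [h1]
      refine Lt.add_mem (ih _ (hJ.inter_Iio haa) (hcard _ inter_subset_left ?_))
        (ih _ (hJ.inter_Ioi haa) (hcard _ inter_subset_left ?_))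
      · exact fun h => lt_irrefl a h.2
      · exact fun h => lt_irrefl a h.2
  have h := main _ univ .all le_rfl
  rwa [inter_univ] at h

end Pool.Agent.HP778.KZ
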