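import Pool.Agent.HP778.Main

/-!
# Values of rational functions which are linear forms in logarithms
-/

set_option autoImplicit false

namespace Pool.Agent.HP778

open Module Finset Polynomial

variable {k Ω : Type} [Field k] [Field Ω] [Algebra k Ω]

/-- coordinate functionals which vanish at `1` -/
theorem exists_coord_one {m : ℕ} {u : Fin m → Ω}
    (hu : LinearIndependent k (fun i : Fin (m + 1) => (finSuccEquiv m i).elim (1 : Ω) u))
    (h : Fin m) : ∃ ψ : Ω →ₗ[k] k, ψ 1 = 0 ∧ ∀ i, ψ (u i) = if i = h then 1 else 0 := by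
  obtain ⟨ψ, hψ⟩ := exists_coord hu ((finSuccEquiv m).symm (some h))
  refine ⟨ψ, ?_, fun i => ?_⟩
  · have h1 := hψ ((finSuccEquiv m).symm none)
    rw [Equiv.apply_symm_apply] at h1
    rw [if_neg (fun h2 => by
      have := (finSuccEquiv m).symm.injective h2
      exact absurd this (by simp))] at h1
    exact h1
  · have h1 := hψ ((finSuccEquiv m).symm (some i))
    rw [Equiv.apply_symm_apply] at h1
    by_cases hi : i = h
    · subst hi
      rw [if_pos rfl] at h1 ⊢
      exact h1
    · rw [if_neg hi]
      rw [if_neg (fun h2 => hi (Option.some_injective _ ((finSuccEquiv m).symm.injective h2)))] at h1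
      exact h1

/-- **Values.** If the quotients `u i = p i / q i` are in `V ∋ 1` and independent modulo `k`, and
`B p i, B q i ⊆ C`, then `m * dim B ≤ dim C * (dim C - 1)`. -/
theorem rank_values {V : Submodule k Ω} (hV : Hyper V) (h1V : (1 : Ω) ∈ V) {m : ℕ}
    (u p q : Fin m → Ω)
    (hu : LinearIndependent k (fun i : Fin (m + 1) => (finSuccEquiv m i).elim (1 : Ω) u))
    (huV : ∀ i, u i ∈ V) (hrel : ∀ i, q i * u i = p i) (hq0 : ∀ i, q i ≠ 0)
    (B C : Submodule k Ω) [FiniteDimensional k B] [FiniteDimensional k C]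
    (hp : ∀ b ∈ B, ∀ i, b * p i ∈ C) (hq : ∀ b ∈ B, ∀ i, b * q i ∈ C) :
    m * finrank k B ≤ finrank k C * (finrank k C - 1) := by
  classical
  let bC := Module.finBasis k C
  let x : Fin (finrank k C) → Ω := fun v => ((bC v : C) : Ω)
  have hx : LinearIndependent k x := bC.linearIndependent.map' C.subtype C.ker_subtype
  let γp : Fin m → B →ₗ[k] C := fun i => {
    toFun := fun b => ⟨(b : Ω) * p i, hp _ b.2 i⟩
    map_add' := by intro b b'; apply Subtype.ext; simp only [Submodule.coe_add, add_mul]
    map_smul' := by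
      intro a b; apply Subtype.ext
      simp only [Submodule.coe_smul, smul_mul_assoc, RingHom.id_apply] }
  let γq : Fin m → B →ₗ[k] C := fun i => {
    toFun := fun b => ⟨(b : Ω) * q i, hq _ b.2 i⟩
    map_add' := by intro b b'; apply Subtype.ext; simp only [Submodule.coe_add, add_mul]
    map_smul' := by
      intro a b; apply Subtype.ext
      simp only [Submodule.coe_smul, smul_mul_assoc, RingHom.id_apply] }
  have hγp : ∀ i (b : B), ∑ v, bC.repr (γp i b) v • x v = (b : Ω) * p i := by
    intro i b
    have h := congrArg (fun z : C => (z : Ω)) (bC.sum_repr (γp i b))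
    simp only [Submodule.coe_sum, Submodule.coe_smul] at h
    exact h
  have hγq : ∀ i (b : B), ∑ v, bC.repr (γq i b) v • x v = (b : Ω) * q i := by
    intro i b
    have h := congrArg (fun z : C => (z : Ω)) (bC.sum_repr (γq i b))
    simp only [Submodule.coe_sum, Submodule.coe_smul] at h
    exact h
  let Φ : (Fin m → B) →ₗ[k] (Fin (finrank k C) → Ω) := {
    toFun := fun b v => ∑ i, (bC.repr (γq i (b i)) v • u i - bC.repr (γp i (b i)) v • (1 : Ω))
    map_add' := by
      intro b b'
      funext v
      simp only [Pi.add_apply, map_add, Finsupp.add_apply, add_smul]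
      rw [← Finset.sum_add_distrib]
      refine Finset.sum_congr rfl fun i _ => ?_
      ring
    map_smul' := by
      intro a b
      funext v
      simp only [Pi.smul_apply, map_smul, Finsupp.smul_apply, smul_eq_mul, RingHom.id_apply]
      rw [Finset.smul_sum]
      refine Finset.sum_congr rfl fun i _ => ?_
      rw [smul_sub, mul_smul, mul_smul] }
  have hrange : finrank k (LinearMap.range Φ) ≤ finrank k C * (finrank k C - 1) := by
    apply hV.finrank_le x hx
    rintro _ ⟨b, rfl⟩
    refine ⟨fun v => ?_, ?_⟩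
    · change ∑ i, (bC.repr (γq i (b i)) v • u i - bC.repr (γp i (b i)) v • (1 : Ω)) ∈ V
      exact Submodule.sum_mem _ fun i _ => Submodule.sub_mem _
        (Submodule.smul_mem _ _ (huV i)) (Submodule.smul_mem _ _ h1V)
    · have e1 : ∑ v, x v * Φ b v = ∑ i,
          ((∑ v, bC.repr (γq i (b i)) v • x v) * u i - ∑ v, bC.repr (γp i (b i)) v • x v) := by
        change ∑ v, x v * ∑ i, (bC.repr (γq i (b i)) v • u i -
          bC.repr (γp i (b i)) v • (1 : Ω)) = _
        simp only [Finset.mul_sum, Finset.sum_mul]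
        rw [Finset.sum_comm]
        refine Finset.sum_congr rfl fun i _ => ?_
        rw [← Finset.sum_sub_distrib]
        refine Finset.sum_congr rfl fun v _ => ?_
        simp only [Algebra.smul_def]
        ring
      rw [e1]
      refine Finset.sum_eq_zero fun i _ => ?_
      rw [hγp, hγq, ← hrel i]
      ring
  choose ψ hψ1 hψ using fun h : Fin m => exists_coord_one hu h
  have hinj : Function.Injective Φ := by
    rw [← LinearMap.ker_eq_bot, Submodule.eq_bot_iff]
    intro b hb
    have h3 : Φ b = 0 := LinearMap.mem_ker.mp hb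
    funext h
    have h6 : (b h : Ω) * q h = 0 := by
      rw [← hγq h]
      refine Finset.sum_eq_zero fun v _ => ?_
      have h4 : ∑ i, (bC.repr (γq i (b i)) v • u i -
          bC.repr (γp i (b i)) v • (1 : Ω)) = 0 := congrFun h3 v
      have h5 := congrArg (ψ h) h4
      rw [map_zero, map_sum, Finset.sum_eq_single h] at h5
      · rw [map_sub, map_smul, map_smul, hψ h h, if_pos rfl, hψ1 h, smul_zero, sub_zero,
          smul_eq_mul, mul_one] at h5
        rw [h5, zero_smul]
      · intro i _ hi
        rw [map_sub, map_smul, map_smul, hψ h i, if_neg hi, hψ1 h, smul_zero, smul_zero, sub_zero]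
      · intro hh; exact absurd (Finset.mem_univ _) hh
    apply Subtype.ext
    exact (mul_eq_zero.mp h6).resolve_right (hq0 h)
  have h8 := LinearMap.finrank_range_of_inj hinj
  rw [Module.finrank_pi_fintype, Finset.sum_const, Finset.card_univ, Fintype.card_fin,
    smul_eq_mul] at h8
  omega

/-- a set whose independent families have bounded size is contained in a small space -/
theorem exists_space (S : Set Ω) (M : ℕ)
    (h : ∀ (m : ℕ) (l : Fin m → Ω), LinearIndependent k l → (∀ i, l i ∈ S) → m ≤ M) :
    ∃ W : Submodule k Ω, FiniteDimensional k W ∧ finrank k W ≤ M ∧ S ⊆ W ∧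
      W ≤ Submodule.span k S := by
  classical
  let P : ℕ → Prop := fun m => ∃ l : Fin m → Ω, LinearIndependent k l ∧ ∀ i, l i ∈ S
  have h0 : P 0 := ⟨Fin.elim0, linearIndependent_empty_type, fun i => i.elim0⟩
  have hb : ∀ m, P m → m ≤ M := fun m ⟨l, hl, hS⟩ => h m l hl hS
  set m := Nat.findGreatest P M with hm
  obtain ⟨l, hl, hS⟩ : P m := Nat.findGreatest_spec (Nat.zero_le M) h0
  refine ⟨Submodule.span k (Set.range l), FiniteDimensional.span_of_finite k (Set.finite_range l),
    ?_, ?_, ?_⟩
  · have h1 := finrank_span_eq_card hl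
    rw [Fintype.card_fin] at h1
    rw [h1]
    exact hb m ⟨l, hl, hS⟩
  · intro s hs
    by_contra hcon
    have h2 : P (m + 1) := by
      refine ⟨Fin.cons s l, ?_, fun i => ?_⟩
      · exact LinearIndependent.finCons hl hcon
      · refine Fin.cases ?_ (fun j => ?_) i
        · exact hs
        · exact hS j
    have h3 := hb _ h2
    have h4 := Nat.le_findGreatest h3 h2
    omega
  · rw [Submodule.span_le]
    rintro _ ⟨i, rfl⟩
    exact Submodule.subset_span (hS i)

/-- the same for independent families which contain `1` -/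
theorem exists_space_one (S : Set Ω) (M : ℕ)
    (h : ∀ (m : ℕ) (l : Fin m → Ω),
      LinearIndependent k (fun i : Fin (m + 1) => (finSuccEquiv m i).elim (1 : Ω) l) →
      (∀ i, l i ∈ S) → m ≤ M) :
    ∃ W : Submodule k Ω, FiniteDimensional k W ∧ finrank k W ≤ M + 1 ∧ S ⊆ W ∧ (1 : Ω) ∈ W := by
  classical
  have hfun : ∀ (m : ℕ) (l : Fin m → Ω), (fun i : Fin (m + 1) =>
      (finSuccEquiv m i).elim (1 : Ω) l) = Fin.cons (1 : Ω) l := by
    intro m l
    funext i
    refine Fin.cases ?_ (fun j => ?_) i
    · simp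
    · simp
  let P : ℕ → Prop := fun m => ∃ l : Fin m → Ω,
    LinearIndependent k (Fin.cons (1 : Ω) l : Fin (m + 1) → Ω) ∧ ∀ i, l i ∈ S
  have h0 : P 0 := by
    refine ⟨Fin.elim0, ?_, fun i => i.elim0⟩
    refine LinearIndependent.finCons linearIndependent_empty_type ?_
    rw [Set.range_eq_empty, Submodule.span_empty, Submodule.mem_bot]
    exact one_ne_zero
  have hb : ∀ m, P m → m ≤ M := fun m ⟨l, hl, hS⟩ => h m l (by rw [hfun]; exact hl) hS
  set m := Nat.findGreatest P M with hm
  obtain ⟨l, hl, hS⟩ : P m := Nat.findGreatest_spec (Nat.zero_le M) h0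
  refine ⟨Submodule.span k (Set.range (Fin.cons (1 : Ω) l : Fin (m + 1) → Ω)),
    FiniteDimensional.span_of_finite k (Set.finite_range _), ?_, ?_, ?_⟩
  · have h1 := finrank_span_eq_card hl
    rw [Fintype.card_fin] at h1
    rw [h1]
    have := hb m ⟨l, hl, hS⟩
    omega
  · intro s hs
    by_contra hcon
    have h2 : P (m + 1) := by
      refine ⟨Fin.snoc l s, ?_, fun i => ?_⟩
      · have h3 : (Fin.cons (1 : Ω) (Fin.snoc l s : Fin (m + 1) → Ω) : Fin (m + 2) → Ω) =
            Fin.snoc (Fin.cons (1 : Ω) l : Fin (m + 1) → Ω) s := by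
          rw [← Fin.cons_snoc_eq_snoc_cons]
        rw [h3]
        exact LinearIndependent.finSnoc hl hcon
      · refine Fin.lastCases ?_ (fun j => ?_) i
        · rw [Fin.snoc_last]; exact hs
        · rw [Fin.snoc_castSucc]; exact hS j
    have h3 := hb _ h2
    have h4 := Nat.le_findGreatest h3 h2
    omega
  · exact Submodule.subset_span ⟨0, rfl⟩

end Pool.Agent.HP778
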