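import Pool.Agent.HP778.KZ3
import Pool.Agent.HP778.Values

/-!
# One-variable periods
-/

set_option autoImplicit false

namespace Pool.Agent.HP778.KZ

open MeasureTheory Polynomial Set Module
open Pool.Agent.H301R2.SSE (QB mem_QB Lt Lt_mul Lt_alg Lt_log Lt_one)
open Pool.Agent.W254.HP (boxV boxV_double finrank_boxV_le box_mul one_mem_boxV finrank_boxV_pos
  mon_mem)

/-- `z` is the value of an absolutely convergent integral of a rational function of one variable,
with algebraic coefficients, over a subset of the line which is defined by polynomial inequalities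
with real algebraic coefficients. -/
def IsIntegral (z : ℂ) : Prop :=
  ∃ (P Q : Polynomial (algebraicClosure ℚ ℂ)) (σ : Set ℝ), Q ≠ 0 ∧ SemiAlg σ ∧
    IntegrableOn (fun x : ℝ => aeval (x : ℂ) P / aeval (x : ℂ) Q) σ ∧
    z = ∫ x in σ, aeval (x : ℂ) P / aeval (x : ℂ) Q

/-- The one-variable periods: the linear combinations, with algebraic coefficients, of such
integrals. -/
noncomputable def periods1 : Submodule (algebraicClosure ℚ ℂ) ℂ :=
  Submodule.span (algebraicClosure ℚ ℂ) {z : ℂ | IsIntegral z}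

theorem periods1_le : periods1 ≤ Lt := by
  unfold periods1
  rw [Submodule.span_le]
  rintro z ⟨P, Q, σ, hQ, hσ, hi, rfl⟩
  exact integral_mem_Lt hσ P Q hQ hi

theorem semiAlg_Ioo {a b : ℝ} (ha : IsAlgebraic ℚ a) (hb : IsAlgebraic ℚ b) :
    SemiAlg (Ioo a b) := by
  let a' : algebraicClosure ℚ ℝ := ⟨a, mem_algebraicClosure_iff.mpr ha⟩
  let b' : algebraicClosure ℚ ℝ := ⟨b, mem_algebraicClosure_iff.mpr hb⟩
  have h1 : {x : ℝ | 0 < aeval x (X - C a')} = Ioi a := by
    ext x
    simp only [mem_ofPred_eq, map_sub, aeval_X, aeval_C, mem_Ioi]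
    exact sub_pos
  have h2 : {x : ℝ | 0 < aeval x (C b' - X)} = Iio b := by
    ext x
    simp only [mem_ofPred_eq, map_sub, aeval_X, aeval_C, mem_Iio]
    exact sub_pos
  rw [← Ioi_inter_Iio, ← h1, ← h2]
  exact (SemiAlg.pos _).inter (SemiAlg.pos _)

/-- logarithms of integers are one-variable periods -/
theorem log_mem {n : ℕ} (hn : 1 ≤ n) : ((Real.log n : ℝ) : ℂ) ∈ periods1 := by
  apply Submodule.subset_span
  have hn' : (1 : ℝ) ≤ n := by exact_mod_cast hn
  have hint : IntervalIntegrable (fun x : ℝ => aeval (x : ℂ) (1 : QB[X]) /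
      aeval (x : ℂ) (X : QB[X])) volume 1 n := by
    apply ContinuousOn.intervalIntegrable
    rw [uIcc_of_le hn']
    intro x hx
    refine (rat_continuousAt 1 X ?_).continuousWithinAt
    rw [aeval_X]
    have : (0 : ℝ) < x := zero_lt_one.trans_le hx.1
    exact_mod_cast this.ne'
  refine ⟨1, X, Ioo 1 n, X_ne_zero, semiAlg_Ioo isAlgebraic_one (isAlgebraic_natCast n),
    (intervalIntegrable_iff_integrableOn_Ioo_of_le hn').mp hint, ?_⟩
  rw [← integral_Ioc_eq_integral_Ioo, ← intervalIntegral.integral_of_le hn']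
  have h1 : (∫ x in (1 : ℝ)..n, aeval (x : ℂ) (1 : QB[X]) / aeval (x : ℂ) (X : QB[X])) =
      ∫ x in (1 : ℝ)..n, ((x⁻¹ : ℝ) : ℂ) := by
    refine intervalIntegral.integral_congr fun x _ => ?_
    simp only [map_one, aeval_X, one_div, Complex.ofReal_inv]
  rw [h1, intervalIntegral.integral_ofReal, integral_inv_of_pos one_pos (one_pos.trans_le hn'),
    div_one]

/-- the one-variable periods form a space of infinite dimension -/
theorem periods1_infinite : ¬ Module.Finite (algebraicClosure ℚ ℂ) periods1 := by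
  intro hfin
  set d := finrank QB periods1 with hd
  have hli := Pool.Agent.W254.HP.log_primes_indep
  let e : Fin (d + 1) → Nat.Primes := fun i => ⟨Nat.nth Nat.Prime i, Nat.prime_nth_prime i⟩
  have he : Function.Injective e := by
    intro i j h
    have h1 : Nat.nth Nat.Prime i = Nat.nth Nat.Prime j := congrArg Subtype.val h
    exact Fin.ext (Nat.nth_injective Nat.infinite_setOfPred_prime h1)
  have h1 := indep_QB (l := fun i : Fin (d + 1) => ((Real.log (e i : ℕ) : ℝ) : ℂ))
    (fun i => exp_log_alg (e i).2.one_lt.le) (hli.comp e he)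
  have h2 : LinearIndependent QB (fun i : Fin (d + 1) =>
      (⟨((Real.log (e i : ℕ) : ℝ) : ℂ), log_mem (e i).2.one_lt.le⟩ : periods1)) := by
    apply LinearIndependent.of_comp periods1.subtype
    exact h1
  have h3 := h2.fintype_card_le_finrank
  rw [Fintype.card_fin] at h3
  omega

/-! ### Values and multipliers for several numbers -/

/-- the values at `t` of the quotients of polynomials with algebraic coefficients and of degree at
most `D` in each variable -/
def ratVals {r : ℕ} (t : Fin r → ℂ) (D : ℕ) : Set ℂ :=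
  {x | ∃ P Q : MvPolynomial (Fin r) (algebraicClosure ℚ ℂ),
    (∀ i, P.degreeOf i ≤ D) ∧ (∀ i, Q.degreeOf i ≤ D) ∧ MvPolynomial.aeval t Q ≠ 0 ∧
    x = MvPolynomial.aeval t P / MvPolynomial.aeval t Q}

theorem values_bound {r : ℕ} (t : Fin r → ℂ) {D : ℕ} (hD : 1 ≤ D) {m : ℕ} (u : Fin m → ℂ)
    (hu : LinearIndependent QB (fun i : Fin (m + 1) => (finSuccEquiv m i).elim (1 : ℂ) u))
    (huV : ∀ i, u i ∈ Lt) (h : ∀ i, u i ∈ ratVals t D) : m ≤ (4 * D) ^ r - 2 ^ r := by
  choose P Q hP hQ hQ0 hue using h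
  have h1 := rank_values hyper_Lt Lt_one u (fun i => MvPolynomial.aeval t (P i))
    (fun i => MvPolynomial.aeval t (Q i)) hu huV (fun i => by
      rw [hue i, mul_div_cancel₀ _ (hQ0 i)]) hQ0 (boxV t D) (boxV t (2 * D))
    (fun b hb i => box_mul t D (D + 1) (2 * D) (by omega) b hb _ (aeval_mem_box t D _ (hP i)))
    (fun b hb i => box_mul t D (D + 1) (2 * D) (by omega) b hb _ (aeval_mem_box t D _ (hQ i)))
  have hb := finrank_boxV_pos t hD
  have h4 := finrank_boxV_le t (2 * D)
  have h5 := boxV_double t D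
  set c := finrank QB (boxV t (2 * D)) with hcdef
  set b := finrank QB (boxV t D) with hbdef
  have h7 : m * b ≤ ((4 * D) ^ r - 2 ^ r) * b := by
    calc m * b ≤ c * (c - 1) := h1
      _ ≤ (2 ^ r * b) * ((2 * D) ^ r - 1) := Nat.mul_le_mul h5 (Nat.sub_le_sub_right h4 1)
      _ = ((4 * D) ^ r - 2 ^ r) * b := by
        have : (4 * D) ^ r - 2 ^ r = 2 ^ r * ((2 * D) ^ r - 1) := by
          rw [Nat.mul_sub, mul_one, ← mul_pow]; congr 2; ring
        rw [this]; ring
  exact Nat.le_of_mul_le_mul_right h7 hb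

/-- the multipliers -/
theorem mult_bound {r : ℕ} (t : Fin r → ℂ) {D : ℕ} (hD : 1 ≤ D) {m : ℕ} (l : Fin m → ℂ)
    (hl : LinearIndependent QB l) (hlL : ∀ i, l i ∈ Lt)
    (h : ∀ i, ∃ x ∈ ratVals t D, Transcendental ℚ x ∧ x * l i ∈ Lt) :
    m ≤ 2 * ((4 * D) ^ r - 2 ^ r) := by
  choose x hx htr hxl using h
  refine (logs_ratio_aux t 0 hD l x 0 hl hlL (fun i => ?_) htr (fun i => ?_)).2 rfl
  · obtain ⟨P, Q, hP, hQ, hQ0, hxe⟩ := hx i
    refine ⟨P, Q, 0, hP, hQ, fun i => ?_, hQ0, hxe, ?_⟩
    · rw [MvPolynomial.degreeOf_zero]; exact Nat.zero_le _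
    · rw [Pi.zero_apply, map_zero, zero_div]
  · rw [mul_zero, add_zero]
    exact hxl i

/-- polynomial multipliers, one number -/
theorem mult_poly_bound {t : ℂ} (ht : Transcendental ℚ t) {D : ℕ} (hD : 1 ≤ D) {m : ℕ}
    (l : Fin m → ℂ) (hl : LinearIndependent QB l) (hlL : ∀ i, l i ∈ Lt)
    (h : ∀ i, ∃ P : QB[X], 1 ≤ P.natDegree ∧ P.natDegree ≤ D ∧ aeval t P * l i ∈ Lt) :
    m ≤ 4 * D - 2 := by
  choose P hP1 hP2 hw using h
  have h := rank_poly hyper_Lt (tr_QB ht) l 0 P hP1 hP2 hl hlL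
    (fun i => by simpa using hw i) ⊥ (fun b _ i => by simp)
  exact arith1 hD h (finrank_bot _ _)

/-- `1` and the numbers `1 / (t - a i)` are independent -/
theorem indep_poles {t : ℂ} (ht : Transcendental ℚ t) {m : ℕ} (a : Fin m → QB)
    (ha : Function.Injective a) : LinearIndependent QB (fun i : Fin (m + 1) =>
      (finSuccEquiv m i).elim (1 : ℂ) (fun i => (t - a i)⁻¹)) := by
  classical
  have hta : ∀ i, t - a i ≠ 0 := fun i h => ht (by rw [sub_eq_zero.mp h]; exact alg_QB (a i))
  rw [Fintype.linearIndependent_iff]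
  intro g hg
  set γ : Option (Fin m) → QB := fun o => g ((finSuccEquiv m).symm o) with hγ
  have hgγ : ∀ i, g i = γ (finSuccEquiv m i) := fun i => by
    rw [hγ]; simp only [Equiv.symm_apply_apply]
  have h1 : (γ none : ℂ) + ∑ i, (γ (some i) : ℂ) * (t - a i)⁻¹ = 0 := by
    rw [← hg]
    rw [Fintype.sum_equiv (finSuccEquiv m) _
      (fun o => γ o • (o.elim (1 : ℂ) (fun i => (t - a i)⁻¹))) (fun i => by rw [hgγ])]
    rw [Fintype.sum_option]
    have e1 : γ none • (Option.elim none (1 : ℂ) (fun i => (t - a i)⁻¹)) = (γ none : ℂ) := by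
      rw [Option.elim_none, Algebra.smul_def, mul_one]; rfl
    rw [e1]
    congr 1
  let G : QB[X] := C (γ none) * ∏ j, (X - C (a j)) +
    ∑ i, C (γ (some i)) * ∏ j ∈ Finset.univ.erase i, (X - C (a j))
  have hXa : ∀ j, aeval t (X - C (a j)) = t - a j := by
    intro j
    rw [map_sub, aeval_X, aeval_C]
    rfl
  have hG : aeval t G = 0 := by
    have e2 : aeval t G = (∏ j, (t - a j)) *
        ((γ none : ℂ) + ∑ i, (γ (some i) : ℂ) * (t - a i)⁻¹) := by
      simp only [G, map_add, map_mul, map_prod, map_sum, hXa, aeval_C]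
      rw [mul_add, Finset.mul_sum]
      congr 1
      · rw [mul_comm]; rfl
      · refine Finset.sum_congr rfl fun i _ => ?_
        rw [← Finset.mul_prod_erase Finset.univ _ (Finset.mem_univ i)]
        have := hta i
        change (γ (some i) : ℂ) * _ = _
        field_simp
    rw [e2, h1, mul_zero]
  have hG0 : G = 0 := aeval_inj (tr_QB ht) (by rw [hG, map_zero])
  have hsome : ∀ i, γ (some i) = 0 := by
    intro i
    have h2 := congrArg (Polynomial.eval (a i)) hG0
    simp only [G, eval_add, eval_mul, eval_C, eval_prod, eval_finsetSum, eval_sub, eval_X,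
      eval_zero] at h2
    rw [Finset.prod_eq_zero (Finset.mem_univ i) (sub_self _), mul_zero, zero_add,
      Finset.sum_eq_single i] at h2
    · rcases mul_eq_zero.mp h2 with h3 | h3
      · exact h3
      · exfalso
        obtain ⟨j, hj, h4⟩ := Finset.prod_eq_zero_iff.mp h3
        exact (Finset.mem_erase.mp hj).1 (ha (sub_eq_zero.mp h4)).symm
    · intro j _ hji
      rw [Finset.prod_eq_zero (Finset.mem_erase.mpr ⟨Ne.symm hji, Finset.mem_univ i⟩)
        (sub_self _), mul_zero]
    · intro h; exact absurd (Finset.mem_univ _) h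
  have hnone : γ none = 0 := by
    rw [Finset.sum_eq_zero (fun i _ => by rw [hsome i]; simp), add_zero] at h1
    exact_mod_cast h1
  intro i
  rw [hgγ]
  cases finSuccEquiv m i with
  | none => exact hnone
  | some j => exact hsome j

theorem inv_mem_ratVals (t : ℂ) (a : QB) (hta : t - a ≠ 0) : (t - a)⁻¹ ∈ ratVals ![t] 1 := by
  refine ⟨1, MvPolynomial.X 0 - MvPolynomial.C a, fun j => ?_, fun j => ?_, ?_, ?_⟩
  · rw [MvPolynomial.degreeOf_one]; exact Nat.zero_le _
  · refine (MvPolynomial.degreeOf_sub_le _ _ _).trans ?_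
    rw [MvPolynomial.degreeOf_C, MvPolynomial.degreeOf_X]
    split_ifs <;> simp
  · rw [map_sub, MvPolynomial.aeval_X, MvPolynomial.aeval_C]
    exact hta
  · rw [map_sub, MvPolynomial.aeval_X, MvPolynomial.aeval_C, map_one, one_div]
    rfl

/-- **Few poles.** -/
theorem few_poles {t : ℂ} (ht : Transcendental ℚ t) {m : ℕ} (a : Fin m → ℂ)
    (ha : Function.Injective a) (haalg : ∀ i, IsAlgebraic ℚ (a i))
    (hw : ∀ i, (t - a i)⁻¹ ∈ Lt) : m ≤ 2 := by
  let a' : Fin m → QB := fun i => ⟨a i, mem_QB.mpr (haalg i)⟩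
  have ha' : Function.Injective a' := fun i j h => ha (congrArg Subtype.val h)
  have hta : ∀ i, t - a i ≠ 0 := fun i h => ht (by rw [sub_eq_zero.mp h]; exact haalg i)
  have h1 := values_bound (r := 1) ![t] le_rfl (fun i => (t - a' i)⁻¹) (indep_poles ht a' ha') hw
    (fun i => inv_mem_ratVals t (a' i) (hta i))
  norm_num at h1
  exact h1

end Pool.Agent.HP778.KZ
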