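import Pool.Agent.HP778.KZ4

/-!
# Poles, complex conjugation, spaces of multipliers
-/

set_option autoImplicit false

namespace Pool.Agent.HP778.KZ

open Polynomial Set Module
open Pool.Agent.H301R2.SSE (QB mem_QB Lt Lt_mul Lt_alg Lt_log Lt_one)

theorem self_mem_ratVals (t : ℂ) : t ∈ ratVals ![t] 1 := by
  refine ⟨MvPolynomial.X 0, 1, fun j => ?_, fun j => ?_, ?_, ?_⟩
  · rw [MvPolynomial.degreeOf_X]
    split_ifs <;> simp
  · rw [MvPolynomial.degreeOf_one]; exact Nat.zero_le _
  · rw [map_one]; exact one_ne_zero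
  · rw [map_one, MvPolynomial.aeval_X, div_one]; rfl

/-- If `t` is a linear form in logarithms then there is at most one finite pole. -/
theorem few_poles' {t : ℂ} (ht : Transcendental ℚ t) (htL : t ∈ Lt) {a b : ℂ}
    (ha : IsAlgebraic ℚ a) (hb : IsAlgebraic ℚ b) (hwa : (t - a)⁻¹ ∈ Lt) (hwb : (t - b)⁻¹ ∈ Lt) :
    a = b := by
  by_contra hab
  let a' : QB := ⟨a, mem_QB.mpr ha⟩
  let b' : QB := ⟨b, mem_QB.mpr hb⟩
  have hab' : a' ≠ b' := fun h => hab (congrArg Subtype.val h)
  have hta : t - a ≠ 0 := fun h => ht (by rw [sub_eq_zero.mp h]; exact ha)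
  have htb : t - b ≠ 0 := fun h => ht (by rw [sub_eq_zero.mp h]; exact hb)
  have h1 := values_bound (r := 1) ![t] le_rfl (m := 3) ![t, (t - a')⁻¹, (t - b')⁻¹] ?_ ?_ ?_
  · norm_num at h1
  · rw [Fintype.linearIndependent_iff]
    intro g hg
    have hsum : (g 0 : ℂ) + g 1 * t + g 2 * (t - a)⁻¹ + g 3 * (t - b)⁻¹ = 0 := by
      have e0 : (finSuccEquiv 3) 0 = none := rfl
      have e1 : (finSuccEquiv 3) 1 = some 0 := rfl
      have e2 : (finSuccEquiv 3) 2 = some 1 := rfl
      have e3 : (finSuccEquiv 3) 3 = some 2 := rfl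
      rw [← hg, Fin.sum_univ_four, e0, e1, e2, e3]
      simp only [Option.elim, Algebra.smul_def, mul_one, Matrix.cons_val_zero,
        Matrix.cons_val_one, Matrix.cons_val]
      rfl
    let G : QB[X] := (C (g 0) + C (g 1) * X) * ((X - C a') * (X - C b')) +
      C (g 2) * (X - C b') + C (g 3) * (X - C a')
    have hG : aeval t G = 0 := by
      have e1 : aeval t G = ((g 0 : ℂ) + g 1 * t) * ((t - a) * (t - b)) + g 2 * (t - b) +
          g 3 * (t - a) := by
        simp only [G, map_add, map_mul, map_sub, aeval_X, aeval_C]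
        rfl
      have e2 : aeval t G = (t - a) * (t - b) *
          ((g 0 : ℂ) + g 1 * t + g 2 * (t - a)⁻¹ + g 3 * (t - b)⁻¹) := by
        rw [e1]
        field_simp
      rw [e2, hsum, mul_zero]
    have hG0 : G = 0 := aeval_inj (tr_QB ht) (by rw [hG, map_zero])
    have h2 : g 2 = 0 := by
      have h3 := congrArg (Polynomial.eval a') hG0
      simp only [G, eval_add, eval_mul, eval_C, eval_sub, eval_X, eval_zero, sub_self, zero_mul,
        mul_zero, zero_add, add_zero] at h3
      exact (mul_eq_zero.mp h3).resolve_right (sub_ne_zero.mpr hab')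
    have h3 : g 3 = 0 := by
      have h4 := congrArg (Polynomial.eval b') hG0
      simp only [G, eval_add, eval_mul, eval_C, eval_sub, eval_X, eval_zero, sub_self,
        mul_zero, zero_add, add_zero] at h4
      exact (mul_eq_zero.mp h4).resolve_right (sub_ne_zero.mpr hab'.symm)
    have h4 : C (g 0) + C (g 1) * X = (0 : QB[X]) := by
      have h5 : (C (g 0) + C (g 1) * X) * ((X - C a') * (X - C b')) = (0 : QB[X]) := by
        rw [← hG0]
        simp only [G, h2, h3, map_zero, zero_mul, add_zero]
      exact (mul_eq_zero.mp h5).resolve_right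
        (mul_ne_zero (X_sub_C_ne_zero _) (X_sub_C_ne_zero _))
    have h5 : g 1 = 0 := by
      have := congrArg (fun R : QB[X] => R.coeff 1) h4
      simpa using this
    have h6 : g 0 = 0 := by
      have := congrArg (fun R : QB[X] => R.coeff 0) h4
      simpa using this
    intro i
    fin_cases i
    · exact h6
    · exact h5
    · exact h2
    · exact h3
  · intro i
    fin_cases i
    · exact htL
    · exact hwa
    · exact hwb
  · intro i
    fin_cases i
    · exact self_mem_ratVals t
    · exact inv_mem_ratVals t a' hta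
    · exact inv_mem_ratVals t b' htb

/-- complex conjugation preserves the linear forms in logarithms -/
theorem conj_mem {z : ℂ} (hz : z ∈ Lt) : (starRingEnd ℂ) z ∈ Lt := by
  have halg : ∀ a : ℂ, IsAlgebraic ℚ a → IsAlgebraic ℚ ((starRingEnd ℂ) a) := by
    intro a ha
    exact (ha.algHom (Complex.conjAe.toAlgHom.restrictScalars ℚ))
  unfold Lt at hz
  induction hz using Submodule.span_induction with
  | mem x hx =>
    rcases hx with hx | hx
    · rw [mem_singleton_iff.mp hx, map_one]
      exact Lt_one
    · apply Lt_log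
      rw [mem_ofPred_eq] at hx
      rw [Complex.exp_conj]
      exact halg _ hx
  | zero => rw [map_zero]; exact Lt.zero_mem
  | add x y _ _ hx hy => rw [map_add]; exact Lt.add_mem hx hy
  | smul a x _ hx =>
    rw [Algebra.smul_def, map_mul]
    exact Lt_mul (halg _ (alg_QB a)) hx

/-- the space of multipliers of a transcendental number has dimension at most two -/
theorem mult_two {t : ℂ} (ht : Transcendental ℚ t) {m : ℕ} (l : Fin m → ℂ)
    (hl : LinearIndependent QB l) (hlL : ∀ i, l i ∈ Lt) (h : ∀ i, t * l i ∈ Lt) : m ≤ 2 := by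
  have := mult_poly_bound ht le_rfl l hl hlL (fun i => ⟨X, by simp, by simp, by
    rw [aeval_X]; exact h i⟩)
  omega

end Pool.Agent.HP778.KZ
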