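import Pool.Agent.HP778.Rank
import Pool.Agent.HP778.Count
import Pool.Agent.W254.HP.Gen

/-!
# Powers of integers with exponents in spaces of polynomials and rational functions

The hyperplane case of the linear subgroup theorem (starting files `Pool.Agent.W254.HP`) and Baker's
theorem (starting files `Pool.Agent.H297R2`) applied to the rank bounds of `Pool.Agent.HP778.Rank`.
-/

set_option autoImplicit false

namespace Pool.Agent.HP778

open Module Finset Polynomial
open Pool.Agent.H301R2.SSE (QB mem_QB Lt Lt_mul Lt_alg Lt_log Lt_one)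
open Pool.Agent.W254.HP (boxV boxV_double finrank_boxV_le box_mul one_mem_boxV finrank_boxV_pos
  mon_mem)

theorem hyper_Lt : Hyper (k := QB) (Ω := ℂ) Lt := fun _ _ d x a hx ha hxa hcol =>
  Pool.Agent.W254.HP.hyperplane' d x a hx ha hxa hcol

theorem tr_QB {t : ℂ} (ht : Transcendental ℚ t) : Transcendental QB t := by
  intro h
  have : Algebra.IsAlgebraic ℚ QB := algebraicClosure.isAlgebraic ℚ ℂ
  exact ht (h.restrictScalars ℚ)

theorem indep_QB {m : ℕ} {l : Fin m → ℂ} (halg : ∀ i, IsAlgebraic ℚ (Complex.exp (l i)))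
    (hli : LinearIndependent ℚ l) : LinearIndependent QB l := by
  have h := Pool.Agent.W254.HP.opt_indep l halg hli
  exact h.comp some (Option.some_injective _)

theorem indep_cons {m : ℕ} {l : Fin m → ℂ} (halg : ∀ i, IsAlgebraic ℚ (Complex.exp (l i)))
    (hli : LinearIndependent ℚ l) :
    LinearIndependent QB (fun i : Fin (m + 1) => (finSuccEquiv m i).elim (1 : ℂ) l) := by
  have h := Pool.Agent.W254.HP.opt_indep l halg hli
  exact h.comp (finSuccEquiv m) (finSuccEquiv m).injective

/-- multiples of the values of polynomials -/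
noncomputable def zV (z : ℂ) (C : Submodule QB ℂ) : Submodule QB ℂ :=
  C.map (LinearMap.mulLeft QB z)

instance (z : ℂ) (C : Submodule QB ℂ) [FiniteDimensional QB C] : FiniteDimensional QB (zV z C) := by
  unfold zV; infer_instance

theorem finrank_zV_le (z : ℂ) (C : Submodule QB ℂ) [FiniteDimensional QB C] :
    finrank QB (zV z C) ≤ finrank QB C := Submodule.finrank_map_le _ _

theorem mem_zV {z x : ℂ} {C : Submodule QB ℂ} (hx : x ∈ C) : x * z ∈ zV z C :=
  ⟨x, hx, by rw [LinearMap.mulLeft_apply, mul_comm]⟩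

theorem arith1 {m D w : ℕ} (hD : 1 ≤ D) (h : m * D ≤ w + 2 * D * (2 * D - 1)) (hw : w = 0) :
    m ≤ 4 * D - 2 := by
  have h1 : m * D ≤ (4 * D - 2) * D := by
    calc m * D ≤ w + 2 * D * (2 * D - 1) := h
      _ = (4 * D - 2) * D := by
        have : 4 * D - 2 = 2 * (2 * D - 1) := by omega
        rw [this, hw]; ring
  exact Nat.le_of_mul_le_mul_right h1 (by omega)

theorem arith2 {m D w : ℕ} (hD : 1 ≤ D) (h : m * D ≤ w + 2 * D * (2 * D - 1)) (hw : w ≤ 2 * D) :
    m ≤ 4 * D := by
  have h1 : m * D ≤ (4 * D) * D := by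
    calc m * D ≤ w + 2 * D * (2 * D - 1) := h
      _ ≤ 2 * D + 2 * D * (2 * D - 1) := by omega
      _ = 2 * D * (1 + (2 * D - 1)) := by ring
      _ = (4 * D) * D := by
        have : 1 + (2 * D - 1) = 2 * D := by omega
        rw [this]; ring
  exact Nat.le_of_mul_le_mul_right h1 (by omega)

/-- independent logarithms with polynomial multipliers -/
theorem logs_poly {t : ℂ} (ht : Transcendental ℚ t) {D : ℕ} (hD : 1 ≤ D) {m : ℕ} (l : Fin m → ℂ)
    (halg : ∀ i, IsAlgebraic ℚ (Complex.exp (l i))) (hli : LinearIndependent ℚ l)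
    (h : ∀ i, ∃ P : QB[X], 1 ≤ P.natDegree ∧ P.natDegree ≤ D ∧ aeval t P * l i ∈ Lt) :
    m ≤ 4 * D - 2 := by
  choose P hP1 hP2 hw using h
  have h := rank_poly hyper_Lt (tr_QB ht) l 0 P hP1 hP2 (indep_QB halg hli)
    (fun i => Lt_log (halg i)) (fun i => by simpa using hw i) ⊥ (fun b _ i => by simp)
  exact arith1 hD h (finrank_bot _ _)

/-- the same if the transcendental number is a linear form in logarithms -/
theorem logs_poly' {t : ℂ} (ht : Transcendental ℚ t) (htL : t ∈ Lt) {D : ℕ} (hD : 1 ≤ D) {m : ℕ}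
    (l : Fin m → ℂ) (halg : ∀ i, IsAlgebraic ℚ (Complex.exp (l i)))
    (hli : LinearIndependent ℚ l)
    (h : ∀ i, ∃ P : QB[X], 1 ≤ P.natDegree ∧ P.natDegree ≤ D ∧ aeval t P * l i ∈ Lt) :
    m ≤ 4 * D - 3 := by
  choose P hP1 hP2 hw using h
  have h := rank_poly hyper_Lt (tr_QB ht) (fun i : Fin (m + 1) => (finSuccEquiv m i).elim 1 l)
    0 (fun i => (finSuccEquiv m i).elim X P) (D := D) ?_ ?_
    (indep_cons halg hli) ?_ ?_ ⊥ (fun b _ i => by simp)
  · have := arith1 hD h (finrank_bot _ _)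
    omega
  · intro i
    cases finSuccEquiv m i with
    | none => simp
    | some j => exact hP1 j
  · intro i
    cases finSuccEquiv m i with
    | none => simpa using hD
    | some j => exact hP2 j
  · intro i
    cases finSuccEquiv m i with
    | none => exact Lt_one
    | some j => exact Lt_log (halg j)
  · intro i
    cases finSuccEquiv m i with
    | none => simpa using htL
    | some j => simpa using hw j

/-- independent logarithms with polynomial multipliers, and multiples of another number -/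
theorem logs_polyz {t : ℂ} (ht : Transcendental ℚ t) (z : ℂ) {D : ℕ} (hD : 1 ≤ D) {m : ℕ}
    (l : Fin m → ℂ) (halg : ∀ i, IsAlgebraic ℚ (Complex.exp (l i)))
    (hli : LinearIndependent ℚ l)
    (h : ∀ i, ∃ P S : QB[X], 1 ≤ P.natDegree ∧ P.natDegree ≤ D ∧ S.natDegree ≤ D ∧
      aeval t P * l i + aeval t S * z ∈ Lt) : m ≤ 4 * D := by
  choose P S hP1 hP2 hS hw using h
  have h := rank_poly hyper_Lt (tr_QB ht) l (fun i => aeval t (S i) * z) P hP1 hP2
    (indep_QB halg hli) (fun i => Lt_log (halg i)) hw (zV z (PV QB t (2 * D))) (fun b hb i => by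
      rw [← mul_assoc]
      exact mem_zV (PV_mul (a := D) (b := D + 1) (by omega) hb
        (aeval_mem_PV (by have := hS i; omega))))
  exact arith2 hD h ((finrank_zV_le _ _).trans (finrank_PV (tr_QB ht) _).le)

/-- the same if the transcendental number is a linear form in logarithms -/
theorem logs_polyz' {t : ℂ} (ht : Transcendental ℚ t) (htL : t ∈ Lt) (z : ℂ) {D : ℕ} (hD : 1 ≤ D)
    {m : ℕ} (l : Fin m → ℂ) (halg : ∀ i, IsAlgebraic ℚ (Complex.exp (l i)))
    (hli : LinearIndependent ℚ l)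
    (h : ∀ i, ∃ P S : QB[X], 1 ≤ P.natDegree ∧ P.natDegree ≤ D ∧ S.natDegree ≤ D ∧
      aeval t P * l i + aeval t S * z ∈ Lt) : m ≤ 4 * D - 1 := by
  choose P S hP1 hP2 hS hw using h
  have h := rank_poly hyper_Lt (tr_QB ht) (fun i : Fin (m + 1) => (finSuccEquiv m i).elim 1 l)
    (fun i => (finSuccEquiv m i).elim 0 fun j => aeval t (S j) * z)
    (fun i => (finSuccEquiv m i).elim X P) (D := D) ?_ ?_
    (indep_cons halg hli) ?_ ?_ (zV z (PV QB t (2 * D))) ?_
  · have := arith2 hD h ((finrank_zV_le _ _).trans (finrank_PV (tr_QB ht) _).le)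
    omega
  · intro i
    cases finSuccEquiv m i with
    | none => simp
    | some j => exact hP1 j
  · intro i
    cases finSuccEquiv m i with
    | none => simpa using hD
    | some j => exact hP2 j
  · intro i
    cases finSuccEquiv m i with
    | none => exact Lt_one
    | some j => exact Lt_log (halg j)
  · intro i
    cases finSuccEquiv m i with
    | none => simpa using htL
    | some j => exact hw j
  · intro b hb i
    cases finSuccEquiv m i with
    | none =>
      change b * 0 ∈ _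
      rw [mul_zero]; exact Submodule.zero_mem _
    | some j =>
      change b * (aeval t (S j) * z) ∈ _
      rw [← mul_assoc]
      exact mem_zV (PV_mul (a := D) (b := D + 1) (by omega) hb
        (aeval_mem_PV (by have := hS j; omega)))

theorem aeval_mem_box {n : ℕ} (t : Fin n → ℂ) (D : ℕ) (P : MvPolynomial (Fin n) QB)
    (hP : ∀ i, P.degreeOf i ≤ D) : MvPolynomial.aeval t P ∈ boxV t (D + 1) := by
  rw [MvPolynomial.aeval_def, MvPolynomial.eval₂_eq]
  apply Submodule.sum_mem
  intro m hm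
  have h5 := (boxV t (D + 1)).smul_mem (MvPolynomial.coeff m P)
    (mon_mem t (D + 1) (fun i => m i) (fun i =>
      Nat.lt_succ_of_le ((MvPolynomial.monomial_le_degreeOf i hm).trans (hP i))))
  rw [Algebra.smul_def] at h5
  have h6 : ∏ i, t i ^ m i = ∏ i ∈ m.support, t i ^ m i := by
    symm
    apply Finset.prod_subset (Finset.subset_univ _)
    intro i _ hi
    rw [Finsupp.notMem_support_iff.mp hi, pow_zero]
  rw [h6] at h5
  exact h5

/-- `x = P(t) / Q(t)`, `y = S(t) / Q(t)` with polynomials of degree at most `D` in each variable -/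
def IsQuot {r : ℕ} (D : ℕ) (t : Fin r → ℂ) (x y : ℂ) : Prop :=
  ∃ P Q S : MvPolynomial (Fin r) QB, (∀ i, P.degreeOf i ≤ D) ∧ (∀ i, Q.degreeOf i ≤ D) ∧
    (∀ i, S.degreeOf i ≤ D) ∧ MvPolynomial.aeval t Q ≠ 0 ∧
    x = MvPolynomial.aeval t P / MvPolynomial.aeval t Q ∧
    y = MvPolynomial.aeval t S / MvPolynomial.aeval t Q

theorem logs_ratio_aux {r : ℕ} (t : Fin r → ℂ) (z : ℂ) {D : ℕ} (hD : 1 ≤ D) {m : ℕ}
    (l x y : Fin m → ℂ) (hl : LinearIndependent QB l) (hlL : ∀ i, l i ∈ Lt)
    (hxy : ∀ i, IsQuot D t (x i) (y i)) (hx : ∀ i, Transcendental ℚ (x i))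
    (hw : ∀ i, x i * l i + y i * z ∈ Lt) : m ≤ 2 * (4 * D) ^ r ∧
      (z = 0 → m ≤ 2 * ((4 * D) ^ r - 2 ^ r)) := by
  choose P Q S hP hQ hS hQ0 hxe hye using hxy
  have hbase : ∀ W : Submodule QB ℂ, ∀ [FiniteDimensional QB W],
      (∀ b ∈ boxV t D, ∀ i, b * (MvPolynomial.aeval t (S i) * z) ∈ W) →
      m * finrank QB (boxV t D) ≤ 2 * (finrank QB W +
        finrank QB (boxV t (2 * D)) * (finrank QB (boxV t (2 * D)) - 1)) := by
    intro W _ hW
    refine rank_ratio hyper_Lt l (fun i => x i * l i + y i * z)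
      (fun i => MvPolynomial.aeval t (P i)) (fun i => MvPolynomial.aeval t (Q i))
      (fun i => MvPolynomial.aeval t (S i) * z) hl hlL hw ?_ hQ0 ?_
      (boxV t D) (boxV t (2 * D)) W ?_ ?_ hW
    · intro i
      rw [hxe, hye]
      have := hQ0 i
      field_simp
    · intro i a ha
      apply hx i
      have : x i = (a : ℂ) := by
        rw [hxe i, ← ha, mul_div_cancel_right₀ _ (hQ0 i)]
        rfl
      rw [this]
      exact mem_QB.mp a.2
    · intro b hb i
      exact box_mul t D (D + 1) (2 * D) (by omega) b hb _ (aeval_mem_box t D _ (hP i))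
    · intro b hb i
      exact box_mul t D (D + 1) (2 * D) (by omega) b hb _ (aeval_mem_box t D _ (hQ i))
  have hb := finrank_boxV_pos t hD
  have h4 := finrank_boxV_le t (2 * D)
  have h5 := boxV_double t D
  have hc := finrank_boxV_pos t (N := 2 * D) (by omega)
  constructor
  · have h1 := hbase (zV z (boxV t (2 * D))) (fun b hb i => by
      rw [← mul_assoc]
      exact mem_zV (box_mul t D (D + 1) (2 * D) (by omega) b hb _ (aeval_mem_box t D _ (hS i))))
    have h2 := finrank_zV_le z (boxV t (2 * D))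
    set c := finrank QB (boxV t (2 * D)) with hcdef
    set b := finrank QB (boxV t D) with hbdef
    have h6 : c + c * (c - 1) = c * c := by
      obtain ⟨c', hc'⟩ : ∃ c', c = c' + 1 := ⟨c - 1, by omega⟩
      rw [hc', Nat.add_sub_cancel]; ring
    have h7 : m * b ≤ (2 * (4 * D) ^ r) * b := by
      calc m * b ≤ 2 * (finrank QB (zV z (boxV t (2 * D))) + c * (c - 1)) := h1
        _ ≤ 2 * (c * c) := by omega
        _ ≤ 2 * ((2 ^ r * b) * (2 * D) ^ r) :=
          Nat.mul_le_mul_left _ (Nat.mul_le_mul h5 h4)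
        _ = (2 * (4 * D) ^ r) * b := by
          have : (4 * D) ^ r = 2 ^ r * (2 * D) ^ r := by
            rw [← mul_pow]; congr 1; ring
          rw [this]; ring
    exact Nat.le_of_mul_le_mul_right h7 hb
  · intro hz
    have h1 := hbase ⊥ (fun b hb i => by rw [hz, mul_zero, mul_zero]; exact Submodule.zero_mem _)
    rw [finrank_bot, zero_add] at h1
    set c := finrank QB (boxV t (2 * D)) with hcdef
    set b := finrank QB (boxV t D) with hbdef
    have h7 : m * b ≤ (2 * ((4 * D) ^ r - 2 ^ r)) * b := by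
      calc m * b ≤ 2 * (c * (c - 1)) := h1
        _ ≤ 2 * ((2 ^ r * b) * ((2 * D) ^ r - 1)) :=
          Nat.mul_le_mul_left _ (Nat.mul_le_mul h5 (Nat.sub_le_sub_right h4 1))
        _ = (2 * ((4 * D) ^ r - 2 ^ r)) * b := by
          have : (4 * D) ^ r - 2 ^ r = 2 ^ r * ((2 * D) ^ r - 1) := by
            rw [Nat.mul_sub, mul_one, ← mul_pow]; congr 2; ring
          rw [this]; ring
    exact Nat.le_of_mul_le_mul_right h7 hb

/-- independent logarithms, rational functions of arbitrary numbers -/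
theorem logs_ratio {r : ℕ} (t : Fin r → ℂ) (z : ℂ) {D : ℕ} (hD : 1 ≤ D) {m : ℕ}
    (l : Fin m → ℂ) (halg : ∀ i, IsAlgebraic ℚ (Complex.exp (l i)))
    (hli : LinearIndependent ℚ l)
    (h : ∀ i, ∃ x y, IsQuot D t x y ∧ Transcendental ℚ x ∧ x * l i + y * z ∈ Lt) :
    m ≤ 2 * (4 * D) ^ r ∧ (z = 0 → m ≤ 2 * ((4 * D) ^ r - 2 ^ r)) := by
  choose x y hxy hx hw using h
  exact logs_ratio_aux t z hD l x y (indep_QB halg hli) (fun i => Lt_log (halg i)) hxy hx hw

/-- the same if one of the numbers is a transcendental linear form in logarithms -/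
theorem logs_ratio' {r : ℕ} (t : Fin r → ℂ) (z : ℂ) {D : ℕ} (hD : 1 ≤ D) (j : Fin r)
    (htr : Transcendental ℚ (t j)) (htL : t j ∈ Lt) {m : ℕ}
    (l : Fin m → ℂ) (halg : ∀ i, IsAlgebraic ℚ (Complex.exp (l i)))
    (hli : LinearIndependent ℚ l)
    (h : ∀ i, ∃ x y, IsQuot D t x y ∧ Transcendental ℚ x ∧ x * l i + y * z ∈ Lt) :
    m ≤ 2 * (4 * D) ^ r - 1 ∧ (z = 0 → m ≤ 2 * ((4 * D) ^ r - 2 ^ r) - 1) := by
  choose x y hxy hx hw using h
  have h := logs_ratio_aux t z hD (fun i : Fin (m + 1) => (finSuccEquiv m i).elim 1 l)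
    (fun i => (finSuccEquiv m i).elim (t j) x) (fun i => (finSuccEquiv m i).elim 0 y)
    (indep_cons halg hli) ?_ ?_ ?_ ?_
  · constructor
    · have := h.1
      omega
    · intro hz
      have := h.2 hz
      omega
  · intro i
    cases finSuccEquiv m i with
    | none => exact Lt_one
    | some j => exact Lt_log (halg j)
  · intro i
    cases finSuccEquiv m i with
    | none =>
      refine ⟨MvPolynomial.X j, 1, 0, fun i => ?_, fun i => ?_, fun i => ?_, ?_, ?_, ?_⟩
      · rw [MvPolynomial.degreeOf_X]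
        split_ifs <;> omega
      · rw [MvPolynomial.degreeOf_one]; exact Nat.zero_le _
      · rw [MvPolynomial.degreeOf_zero]; exact Nat.zero_le _
      · simp
      · simp
      · simp
    | some j => exact hxy j
  · intro i
    cases finSuccEquiv m i with
    | none => exact htr
    | some j => exact hx j
  · intro i
    cases finSuccEquiv m i with
    | none => simpa using htL
    | some j => exact hw j

/-- independent logarithms with multipliers in a space which contains a transcendental linear form in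
logarithms -/
theorem logs_space' (T : Submodule QB ℂ) [FiniteDimensional QB T] (hT : (1 : ℂ) ∈ T) {t : ℂ}
    (htT : t ∈ T) (ht : Transcendental ℚ t) (htL : t ∈ Lt) {m : ℕ}
    (l : Fin m → ℂ) (halg : ∀ i, IsAlgebraic ℚ (Complex.exp (l i)))
    (hli : LinearIndependent ℚ l)
    (h : ∀ i, ∃ τ ∈ T, Transcendental ℚ τ ∧ τ * l i ∈ Lt) :
    m + 1 ≤ finrank QB T * (finrank QB T - 1) := by
  choose τ hτ htr hw using h
  have h := rank_space hyper_Lt T hT (fun i : Fin (m + 1) => (finSuccEquiv m i).elim 1 l)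
    (fun i => (finSuccEquiv m i).elim t τ) 0 ?_ ?_
    (indep_cons halg hli) ?_ ?_ ⊥ (fun i => Submodule.zero_mem _)
  · rw [finrank_bot, zero_add] at h
    exact h
  · intro i
    cases finSuccEquiv m i with
    | none => exact htT
    | some j => exact hτ j
  · intro i a ha
    cases hi : finSuccEquiv m i with
    | none =>
      rw [hi] at ha
      apply ht
      change algebraMap QB ℂ a = t at ha
      rw [← ha]
      exact mem_QB.mp a.2
    | some j =>
      rw [hi] at ha
      apply htr j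
      change algebraMap QB ℂ a = τ j at ha
      rw [← ha]
      exact mem_QB.mp a.2
  · intro i
    cases finSuccEquiv m i with
    | none => exact Lt_one
    | some j => exact Lt_log (halg j)
  · intro i
    cases finSuccEquiv m i with
    | none => simpa using htL
    | some j => simpa using hw j

theorem exp_log_alg {n : ℕ} (hn : 1 ≤ n) : IsAlgebraic ℚ (Complex.exp ((Real.log n : ℝ) : ℂ)) := by
  rw [← Complex.ofReal_exp, Real.exp_log (by exact_mod_cast hn)]
  exact_mod_cast isAlgebraic_natCast n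

theorem exp_sub_alg {n n₀ : ℕ} (hn : 1 ≤ n) (hn₀ : 1 ≤ n₀) :
    IsAlgebraic ℚ (Complex.exp (((Real.log n : ℝ) : ℂ) - ((Real.log n₀ : ℝ) : ℂ))) := by
  rw [Complex.exp_sub, div_eq_mul_inv]
  exact (exp_log_alg hn).mul (exp_log_alg hn₀).inv

open Classical in
/-- counting integers with property `Q`, if the property allows few independent logarithms -/
theorem count_of {N r : ℕ} (Q : ℕ → Prop)
    (h : ∀ (m : ℕ) (n : Fin m → ℕ), (∀ i, 1 ≤ n i ∧ Q (n i)) →
      (∀ i, IsAlgebraic ℚ (Complex.exp ((Real.log (n i) : ℝ) : ℂ))) →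
      LinearIndependent ℚ (fun i => ((Real.log (n i) : ℝ) : ℂ)) → m ≤ r) :
    ((Finset.Icc 1 N).filter Q).card ≤ (Nat.log 2 N + 1) ^ r := by
  rcases Nat.eq_zero_or_pos N with rfl | hN
  · rw [Finset.Icc_eq_empty (by omega), Finset.filter_empty, Finset.card_empty]
    exact Nat.zero_le _
  refine count (N := N) _ (fun n hn => Finset.mem_Icc.mp (Finset.mem_filter.mp hn).1) 1 hN ?_
  intro m n hn hli
  have hn1 : ∀ i, 1 ≤ n i ∧ Q (n i) := fun i => by
    have := Finset.mem_filter.mp (hn i)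
    exact ⟨(Finset.mem_Icc.mp this.1).1, this.2⟩
  refine h m n hn1 (fun i => exp_log_alg (hn1 i).1) ?_
  simpa using hli

open Classical in
/-- counting the `n` with `t log n + z` a linear form in logarithms, `z` fixed -/
theorem count_coset {t : ℂ} (ht : Transcendental ℚ t) (z : ℂ) (N : ℕ) :
    ((Finset.Icc 1 N).filter (fun n : ℕ => t * ((Real.log n : ℝ) : ℂ) + z ∈ Lt)).card ≤
      (Nat.log 2 N + 1) ^ 2 ∧
    (t ∈ Lt → ((Finset.Icc 1 N).filter
      (fun n : ℕ => t * ((Real.log n : ℝ) : ℂ) + z ∈ Lt)).card ≤ Nat.log 2 N + 1) := by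
  set S := (Finset.Icc 1 N).filter (fun n : ℕ => t * ((Real.log n : ℝ) : ℂ) + z ∈ Lt) with hS
  rcases S.eq_empty_or_nonempty with h0 | ⟨n₀, hn₀⟩
  · rw [h0, Finset.card_empty]
    exact ⟨Nat.zero_le _, fun _ => Nat.zero_le _⟩
  have hmem : ∀ n ∈ S, (1 ≤ n ∧ n ≤ N) ∧ t * ((Real.log n : ℝ) : ℂ) + z ∈ Lt := fun n hn =>
    ⟨Finset.mem_Icc.mp (Finset.mem_filter.mp hn).1, (Finset.mem_filter.mp hn).2⟩
  have key : ∀ (m : ℕ) (n : Fin m → ℕ), (∀ i, n i ∈ S) → ∀ i, ∃ P : QB[X], 1 ≤ P.natDegree ∧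
      P.natDegree ≤ 1 ∧
        aeval t P * (((Real.log (n i) : ℝ) : ℂ) - ((Real.log n₀ : ℝ) : ℂ)) ∈ Lt := by
    intro m n hn i
    refine ⟨X, by simp, by simp, ?_⟩
    rw [aeval_X]
    have h1 := Lt.sub_mem (hmem _ (hn i)).2 (hmem _ hn₀).2
    have h2 : t * (((Real.log (n i) : ℝ) : ℂ) - ((Real.log n₀ : ℝ) : ℂ)) =
      (t * ((Real.log (n i) : ℝ) : ℂ) + z) - (t * ((Real.log n₀ : ℝ) : ℂ) + z) := by ring
    rw [h2]
    exact h1
  constructor
  · refine count (N := N) S (fun n hn => (hmem n hn).1) n₀ (hmem n₀ hn₀).1.2 ?_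
    intro m n hn hli
    exact logs_poly ht le_rfl _ (fun i => exp_sub_alg (hmem _ (hn i)).1.1 (hmem _ hn₀).1.1) hli
      (key m n hn)
  · intro htL
    have h4 := count (N := N) (r := 1) S (fun n hn => (hmem n hn).1) n₀ (hmem n₀ hn₀).1.2 ?_
    · rwa [pow_one] at h4
    intro m n hn hli
    exact logs_poly' ht htL le_rfl _
      (fun i => exp_sub_alg (hmem _ (hn i)).1.1 (hmem _ hn₀).1.1) hli (key m n hn)

/-- `exp w` is a product of powers `e ^ γ α_1 ^ β_1 ⋯` iff `w` is a linear form in logarithms -/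
theorem mem_of_exp {w w' : ℂ} (hw' : w' ∈ Lt) (h : Complex.exp w = Complex.exp w') : w ∈ Lt := by
  obtain ⟨n, hn⟩ := Complex.exp_eq_exp_iff_exists_int.mp h
  rw [hn]
  refine Lt.add_mem hw' (Lt_log ?_)
  rw [Complex.exp_int_mul_two_pi_mul_I]
  exact isAlgebraic_one

theorem natCast_cpow {n : ℕ} (hn : 1 ≤ n) (x : ℂ) :
    (n : ℂ) ^ x = Complex.exp (x * ((Real.log n : ℝ) : ℂ)) := by
  rw [Complex.cpow_def_of_ne_zero (by exact_mod_cast (by omega : n ≠ 0)), Complex.natCast_log,
    mul_comm]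

theorem pi_mem_Lt : ((Real.pi : ℝ) : ℂ) ∈ Lt := by
  have h1 : (Real.pi : ℂ) = (-Complex.I) * (Real.pi * Complex.I) := by
    have := Complex.I_mul_I
    linear_combination (Real.pi : ℂ) * this
  rw [h1]
  refine Lt_mul ?_ (Lt_log ?_)
  · exact Pool.Agent.H340R2.LW.isAlgebraic_I.neg
  · rw [Complex.exp_pi_mul_I]; exact isAlgebraic_one.neg

theorem ofReal_transcendental {x : ℝ} (h : Transcendental ℚ x) : Transcendental ℚ (x : ℂ) := by
  intro h'
  exact h ((isAlgebraic_algebraMap_iff (A := ℂ) (FaithfulSMul.algebraMap_injective ℝ ℂ)).mp (by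
    simpa using h'))

end Pool.Agent.HP778
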