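import Pool.Agent.HP778.Half

/-!
# Rank bounds for multipliers which are polynomials, quotients, or elements of a finite dimensional
space
-/

set_option autoImplicit false

namespace Pool.Agent.HP778

open Module Finset Polynomial

variable {k Ω : Type} [Field k] [Field Ω] [Algebra k Ω]

/-- values of the polynomials of degree `< n` -/
noncomputable def PV (k : Type) {Ω : Type} [Field k] [Field Ω] [Algebra k Ω] (t : Ω) (n : ℕ) :
    Submodule k Ω :=
  (degreeLT k n).map (aeval t : k[X] →ₐ[k] Ω).toLinearMap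

instance (t : Ω) (n : ℕ) : FiniteDimensional k (PV k t n) := by
  have : FiniteDimensional k (degreeLT k n) :=
    LinearEquiv.finiteDimensional (degreeLTEquiv k n).symm
  unfold PV
  infer_instance

theorem mem_PV {t : Ω} {n : ℕ} {z : Ω} : z ∈ PV k t n ↔ ∃ Q ∈ degreeLT k n, aeval t Q = z :=
  Iff.rfl

theorem aeval_inj {t : Ω} (ht : Transcendental k t) :
    Function.Injective (aeval t : k[X] →ₐ[k] Ω) :=
  transcendental_iff_injective.mp ht

theorem finrank_PV {t : Ω} (ht : Transcendental k t) (n : ℕ) : finrank k (PV k t n) = n := by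
  unfold PV
  rw [← (Submodule.equivMapOfInjective (aeval t : k[X] →ₐ[k] Ω).toLinearMap
    (aeval_inj ht) (degreeLT k n)).finrank_eq, (degreeLTEquiv k n).finrank_eq,
    Module.finrank_fintype_fun_eq_card, Fintype.card_fin]

theorem aeval_mem_PV {t : Ω} {n : ℕ} {Q : k[X]} (hQ : Q.natDegree < n) : aeval t Q ∈ PV k t n := by
  refine ⟨Q, ?_, rfl⟩
  rw [SetLike.mem_coe, mem_degreeLT]
  exact lt_of_le_of_lt degree_le_natDegree (by exact_mod_cast hQ)

theorem PV_mul {t : Ω} {a b n : ℕ} (hab : a + b ≤ n + 1) {x y : Ω} (hx : x ∈ PV k t a)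
    (hy : y ∈ PV k t b) : x * y ∈ PV k t n := by
  obtain ⟨P, hP, rfl⟩ := hx
  obtain ⟨Q, hQ, rfl⟩ := hy
  rw [SetLike.mem_coe, mem_degreeLT] at hP hQ
  change aeval t P * aeval t Q ∈ _
  by_cases hP0 : P = 0
  · rw [hP0, map_zero, zero_mul]; exact Submodule.zero_mem _
  by_cases hQ0 : Q = 0
  · rw [hQ0, map_zero, mul_zero]; exact Submodule.zero_mem _
  have h1 := (natDegree_lt_iff_degree_lt hP0).mpr hP
  have h2 := (natDegree_lt_iff_degree_lt hQ0).mpr hQ
  rw [← map_mul]
  apply aeval_mem_PV
  rw [natDegree_mul hP0 hQ0]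
  omega

/-- **Polynomial multipliers.** `t` is transcendental, `P i` are nonconstant polynomials of degree
at most `D`, the `l i ∈ V` are independent and `P i (t) * l i + u i ∈ V`. -/
theorem rank_poly {V : Submodule k Ω} (hV : Hyper V) {t : Ω} (ht : Transcendental k t) {D : ℕ}
    {m : ℕ} (l u : Fin m → Ω) (P : Fin m → k[X]) (hP1 : ∀ i, 1 ≤ (P i).natDegree)
    (hP2 : ∀ i, (P i).natDegree ≤ D) (hl : LinearIndependent k l) (hlV : ∀ i, l i ∈ V)
    (hw : ∀ i, aeval t (P i) * l i + u i ∈ V) (W : Submodule k Ω) [FiniteDimensional k W]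
    (hW : ∀ b ∈ PV k t D, ∀ i, b * u i ∈ W) :
    m * D ≤ finrank k W + 2 * D * (2 * D - 1) := by
  classical
  have h := core hV l (fun i => aeval t (P i) * l i + u i) (fun i => aeval t (P i)) (fun _ => 1) u
    hl hlV hw (fun i => (one_mul _).symm) (PV k t D) (PV k t (2 * D)) W ?_ ?_ hW 0 ?_
  · rw [finrank_PV ht, finrank_PV ht, add_zero] at h
    exact h
  · intro b hb i
    exact PV_mul (a := D) (b := D + 1) (by omega) hb
      (aeval_mem_PV (by have := hP2 i; omega))
  · intro b hb i
    rw [mul_one]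
    exact Submodule.map_mono (degreeLT_mono (by omega)) hb
  · intro c
    have hbot : Deg (PV k t D) (fun i => aeval t (P i)) (fun _ => (1 : Ω)) c = ⊥ := by
      rw [Submodule.eq_bot_iff]
      intro b hb
      rw [mem_Deg] at hb
      choose Q hQ hQq using fun i => mem_PV.mp (b i).2
      have hpoly : ∀ h, Q h * P h = ∑ i, c h i • Q i := by
        intro h
        apply aeval_inj ht
        rw [map_mul, map_sum, hQq, hb h]
        refine Finset.sum_congr rfl fun i _ => ?_
        rw [map_smul, hQq, mul_one]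
      by_contra hcon
      obtain ⟨i₁, hi₁⟩ := Function.ne_iff.mp hcon
      have hne : (Finset.univ.filter fun i => Q i ≠ 0).Nonempty := by
        refine ⟨i₁, Finset.mem_filter.mpr ⟨Finset.mem_univ _, fun h0 => hi₁ ?_⟩⟩
        apply Subtype.ext
        rw [← hQq, h0, map_zero]
        rfl
      obtain ⟨h, hh, hmax⟩ := Finset.exists_max_image _ (fun i => (Q i).natDegree) hne
      have hQh : Q h ≠ 0 := (Finset.mem_filter.mp hh).2
      have hP0 : P h ≠ 0 := by
        intro h0
        have := hP1 h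
        rw [h0, natDegree_zero] at this
        omega
      have h1 : (Q h * P h).natDegree ≤ (Q h).natDegree := by
        rw [hpoly h]
        apply natDegree_sum_le_of_forall_le
        intro i _
        refine (natDegree_smul_le _ _).trans ?_
        by_cases hi : Q i = 0
        · rw [hi, natDegree_zero]; exact Nat.zero_le _
        · exact hmax i (Finset.mem_filter.mpr ⟨Finset.mem_univ _, hi⟩)
      rw [natDegree_mul hQh hP0] at h1
      have := hP1 h
      omega
    rw [hbot, finrank_bot]

/-- **Quotients as multipliers.** -/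
theorem rank_ratio {V : Submodule k Ω} (hV : Hyper V) {m : ℕ} (l lam p q u : Fin m → Ω)
    (hl : LinearIndependent k l) (hlV : ∀ i, l i ∈ V) (hlam : ∀ i, lam i ∈ V)
    (hrel : ∀ i, p i * l i + u i = q i * lam i) (hq0 : ∀ i, q i ≠ 0)
    (hpq : ∀ i, ∀ a : k, algebraMap k Ω a * q i ≠ p i)
    (B C W : Submodule k Ω) [FiniteDimensional k B] [FiniteDimensional k C]
    [FiniteDimensional k W] (hp : ∀ b ∈ B, ∀ i, b * p i ∈ C) (hq : ∀ b ∈ B, ∀ i, b * q i ∈ C)
    (hW : ∀ b ∈ B, ∀ i, b * u i ∈ W) :
    m * finrank k B ≤ 2 * (finrank k W + finrank k C * (finrank k C - 1)) := by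
  have h := core hV l lam p q u hl hlV hlam hrel B C W hp hq hW (m * finrank k B / 2) (fun c => by
    have := finrank_Deg_le B p q hq0 hpq c
    omega)
  omega

/-- **Multipliers in a finite dimensional space.** -/
theorem rank_space {V : Submodule k Ω} (hV : Hyper V) (T : Submodule k Ω) [FiniteDimensional k T]
    (hT : (1 : Ω) ∈ T) {m : ℕ} (l τ u : Fin m → Ω) (hτT : ∀ i, τ i ∈ T)
    (hτ : ∀ i, ∀ a : k, algebraMap k Ω a ≠ τ i) (hl : LinearIndependent k l) (hlV : ∀ i, l i ∈ V)
    (hw : ∀ i, τ i * l i + u i ∈ V) (U : Submodule k Ω) [FiniteDimensional k U]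
    (hu : ∀ i, u i ∈ U) : m ≤ finrank k U + finrank k T * (finrank k T - 1) := by
  classical
  have h := core hV l (fun i => τ i * l i + u i) τ (fun _ => 1) u hl hlV hw
    (fun i => (one_mul _).symm) (Submodule.span k {(1 : Ω)}) T U ?_ ?_ ?_ 0 ?_
  · rw [finrank_span_singleton one_ne_zero, mul_one, add_zero] at h
    exact h
  · intro b hb i
    obtain ⟨a, rfl⟩ := Submodule.mem_span_singleton.mp hb
    rw [smul_mul_assoc, one_mul]
    exact T.smul_mem _ (hτT i)
  · intro b hb i
    obtain ⟨a, rfl⟩ := Submodule.mem_span_singleton.mp hb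
    rw [mul_one]
    exact T.smul_mem _ hT
  · intro b hb i
    obtain ⟨a, rfl⟩ := Submodule.mem_span_singleton.mp hb
    rw [smul_mul_assoc, one_mul]
    exact U.smul_mem _ (hu i)
  · intro c
    have hbot : Deg (Submodule.span k {(1 : Ω)}) τ (fun _ => (1 : Ω)) c = ⊥ := by
      rw [Submodule.eq_bot_iff]
      intro b hb
      rw [mem_Deg] at hb
      choose a ha using fun i => Submodule.mem_span_singleton.mp (b i).2
      funext h
      apply Subtype.ext
      by_contra hne
      have hah : a h ≠ 0 := by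
        intro h0
        apply hne
        rw [← ha h, h0, zero_smul]
        rfl
      apply hτ h ((a h)⁻¹ * ∑ i, c h i * a i)
      have h1 := hb h
      rw [← ha h] at h1
      rw [map_mul, map_sum, map_inv₀]
      have h2 : algebraMap k Ω (a h) ≠ 0 := by
        rwa [Ne, map_eq_zero]
      rw [inv_mul_eq_iff_eq_mul₀ h2]
      have h3 : ∑ i, algebraMap k Ω (c h i * a i) =
          ∑ i, c h i • (((b i : Submodule.span k {(1 : Ω)}) : Ω) * 1) := by
        refine Finset.sum_congr rfl fun i _ => ?_
        rw [← ha i, map_mul, Algebra.smul_def, Algebra.smul_def, mul_one, mul_one]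
      rw [h3, ← h1, Algebra.smul_def, mul_one]
    rw [hbot, finrank_bot]

end Pool.Agent.HP778
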